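import Pool.Agent.Helper55.CM.Defs
import Pool.Agent.Helper92.GB.U1
import Pool.Agent.Helper92.GB.U2

/-!
# Block FIN (helper9)
From the rational points to all points. `κ = 2 c (1 - τ)` in the application, `0 ≤ κ`, `κ ≤ 1 / 2`.
Proof. Let `Q0 = N ^ (1 - κ) ≥ 1`. Dirichlet (`Real.exists_int_int_abs_mul_sub_le` with `⌊Q0⌋`): `1 ≤ k ≤ Q0`, `|k x - j| ≤ 1 / (⌊Q0⌋ + 1) ≤ 1 / Q0`; divide `j`, `k` by their
greatest common divisor: `1 ≤ q ≤ Q0`, `IsCoprime b q`, `|q x - b| ≤ 1 / Q0`, `β = x - b / q`, `q |β| N ≤ N ^ κ`, `|β| ≤ 1`.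
If `q ≥ N ^ κ` then `|β| N ≤ 1` and partial summation gives `‖F mu N (b / q + β)‖ ≤ (1 + 2 π |β| N) max_{M ≤ N} ‖F mu M (b / q)‖ ≤ 8 C N ^ (σ + ε)` by hmin.
If `q ≤ N ^ κ` then hmaj gives `C N ^ (a + ε) (√q + √(q |β| N)) ≤ 2 C N ^ (a + κ / 2 + ε)`. So `‖F mu N x‖ ≤ C' N ^ (max σ (a + κ / 2) + ε)` for every `ε > 0` and all `x`,
and `theta mu ≤ max σ (a + κ / 2)` (see `Helper92/GB/Theta.lean`).
-/

set_option autoImplicit false

namespace Pool.Agent.Helper55.CM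

open Finset
open Pool.Agent.Helper92.GB (e F tw npi theta)

/-- Partial summation: from `y` to `y + β`. -/
theorem fin_part (N : ℕ) (y β B : ℝ) (hβ : |β| * N ≤ 1) (hB : ∀ M : ℕ, M ≤ N → ‖F mu M y‖ ≤ B) :
    ‖F mu N (y + β)‖ ≤ 9 * B := by
  have hB0 : 0 ≤ B := (norm_nonneg _).trans (hB 0 (Nat.zero_le _))
  have hpi0 := Real.pi_pos
  rcases Nat.eq_zero_or_pos N with rfl | hN
  · have : F mu 0 (y + β) = 0 := by simp [F]
    rw [this, norm_zero]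
    positivity
  have hD : ∀ n, 0 < n → n < N → ‖(fun n : ℕ => e (n * β)) (n + 1) - (fun n : ℕ => e (n * β)) n‖ ≤
      2 * Real.pi * |β| := by
    intro n _ _
    have e1 : e (((n + 1 : ℕ) : ℝ) * β) = e (n * β) * e β := by
      rw [← Pool.Agent.Helper92.GB.u2_e_add]
      congr 1
      push_cast
      ring
    show ‖e (((n + 1 : ℕ) : ℝ) * β) - e (n * β)‖ ≤ _
    rw [e1]
    have e2 : e (n * β) * e β - e (n * β) = e (n * β) * (e β - 1) := by ring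
    rw [e2, norm_mul, Pool.Agent.Helper92.GB.u2_norm_e, one_mul]
    have e3 : e β = Complex.exp (Complex.I * ((2 * Real.pi * β : ℝ) : ℂ)) := by
      unfold e
      congr 1
      push_cast
      ring
    rw [e3]
    refine Real.norm_exp_I_mul_ofReal_sub_one_le.trans ?_
    rw [Real.norm_eq_abs, abs_mul, abs_of_pos (by positivity)]
  have h1 := Pool.Agent.Helper92.GB.abel_bound_c (fun n => (mu n : ℂ) * e (n * y))
    (fun n => e (n * β)) B (2 * Real.pi * |β|) 0 N hN (fun n hn => hB n hn)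
    (fun n => (Pool.Agent.Helper92.GB.u2_norm_e _).le) hD
  have e1 : F mu N (y + β) = ∑ n ∈ Ioc 0 N, (mu n : ℂ) * e (n * y) * e (n * β) := by
    unfold F
    refine Finset.sum_congr (by ext n; simp only [mem_Icc, mem_Ioc]; omega) fun n _ => ?_
    rw [mul_assoc, ← Pool.Agent.Helper92.GB.u2_e_add]
    congr 2
    ring
  rw [e1]
  refine h1.trans ?_
  rw [mul_comm 9 B]
  refine mul_le_mul_of_nonneg_left ?_ hB0
  have hpi : Real.pi ≤ 3.5 := by linarith [Real.pi_lt_d2]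
  have h2 : ((N : ℝ) - ((0 + 1 : ℕ) : ℝ)) * (2 * Real.pi * |β|) ≤ 7 := by
    calc ((N : ℝ) - ((0 + 1 : ℕ) : ℝ)) * (2 * Real.pi * |β|) ≤ N * (2 * Real.pi * |β|) := by
          refine mul_le_mul_of_nonneg_right ?_ (by positivity)
          push_cast
          linarith
      _ = 2 * Real.pi * (|β| * N) := by ring
      _ ≤ 2 * 3.5 * 1 := by gcongr
      _ = 7 := by norm_num
  linarith

theorem fin_aux (σ κ a : ℝ) (hσ : 0 ≤ σ) (hκ0 : 0 ≤ κ) (hκ1 : κ ≤ 1 / 2) (ha : 0 ≤ a)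
    (hmin : ∀ ε : ℝ, 0 < ε → ∃ C : ℝ, 0 ≤ C ∧ ∀ N q : ℕ, 1 ≤ N → 1 ≤ q → ∀ b : ℤ, IsCoprime b (q : ℤ) →
      (N : ℝ) ^ κ ≤ q → (q : ℝ) ≤ (N : ℝ) ^ (1 - κ) → ∀ M : ℕ, M ≤ N →
      ‖F mu M ((b : ℝ) / q)‖ ≤ C * (N : ℝ) ^ (σ + ε))
    (hmaj : ∀ ε : ℝ, 0 < ε → ∃ C : ℝ, 0 ≤ C ∧ ∀ N q : ℕ, 1 ≤ N → 1 ≤ q → q ≤ N → ∀ (b : ℤ) (β : ℝ),
      |β| ≤ 1 → ‖F mu N ((b : ℝ) / q + β)‖ ≤
        C * (N : ℝ) ^ (a + ε) * (Real.sqrt q * (1 + Real.sqrt (|β| * N)))) :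
    theta mu ≤ max σ (a + κ / 2) := by
  refine Pool.Agent.Helper92.GB.theta_le mu _ (le_max_of_le_left hσ) fun ε hε => ?_
  obtain ⟨C1, hC1, hmin⟩ := hmin ε hε
  obtain ⟨C2, hC2, hmaj⟩ := hmaj ε hε
  refine ⟨9 * C1 + 2 * C2, fun N hN x => ?_⟩
  have hN1 : (1 : ℝ) ≤ N := by exact_mod_cast hN
  have hN0 : (0 : ℝ) < N := by linarith
  set Q0 : ℝ := (N : ℝ) ^ (1 - κ) with hQ0
  have hQ1 : 1 ≤ Q0 := Real.one_le_rpow hN1 (by linarith)
  have hQN : Q0 ≤ N := by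
    calc Q0 ≤ (N : ℝ) ^ (1 : ℝ) := Real.rpow_le_rpow_of_exponent_le hN1 (by linarith)
      _ = N := Real.rpow_one _
  have hn : 0 < ⌊Q0⌋₊ := Nat.floor_pos.2 hQ1
  obtain ⟨r, hr1, hr2⟩ := Real.exists_rat_abs_sub_le_and_den_le x hn
  have hq : 1 ≤ r.den := r.den_pos
  have hq1 : (1 : ℝ) ≤ r.den := by exact_mod_cast hq
  have hq0 : (0 : ℝ) < r.den := by linarith
  have hqQ : (r.den : ℝ) ≤ Q0 := le_trans (by exact_mod_cast hr2) (Nat.floor_le (by linarith))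
  have hqN : r.den ≤ N := by exact_mod_cast hqQ.trans hQN
  have hcop : IsCoprime r.num (r.den : ℤ) := by
    rw [Int.isCoprime_iff_nat_coprime]
    exact r.reduced
  have hrc : (r : ℝ) = (r.num : ℝ) / r.den := Rat.cast_def r
  set β : ℝ := x - (r.num : ℝ) / r.den with hβ
  have hx : x = (r.num : ℝ) / r.den + β := by rw [hβ]; ring
  rw [hrc] at hr1
  have hfl : Q0 ≤ (⌊Q0⌋₊ : ℝ) + 1 := (Nat.lt_floor_add_one Q0).le
  have hqβ : (r.den : ℝ) * |β| ≤ 1 / Q0 := by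
    calc (r.den : ℝ) * |β| ≤ r.den * (1 / (((⌊Q0⌋₊ : ℝ) + 1) * r.den)) := by gcongr
      _ = 1 / ((⌊Q0⌋₊ : ℝ) + 1) := by field_simp
      _ ≤ 1 / Q0 := one_div_le_one_div_of_le (by linarith) hfl
  have hβ1 : |β| ≤ 1 := by
    have h1 : |β| ≤ (r.den : ℝ) * |β| := le_mul_of_one_le_left (abs_nonneg _) hq1
    have h2 : 1 / Q0 ≤ 1 := by rw [div_le_one (by linarith)]; exact hQ1
    linarith
  have hNκ : 1 / Q0 * N = (N : ℝ) ^ κ := by
    rw [hQ0, one_div, ← Real.rpow_neg hN0.le]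
    nth_rewrite 2 [← Real.rpow_one (N : ℝ)]
    rw [← Real.rpow_add hN0]
    congr 1
    ring
  have hqβN : (r.den : ℝ) * |β| * N ≤ (N : ℝ) ^ κ := by
    rw [← hNκ]
    gcongr
  have hmono : ∀ s : ℝ, s ≤ max σ (a + κ / 2) → (N : ℝ) ^ (s + ε) ≤
      (N : ℝ) ^ (max σ (a + κ / 2) + ε) := fun s hs =>
    Real.rpow_le_rpow_of_exponent_le hN1 (by linarith)
  have hP0 : 0 ≤ (N : ℝ) ^ (max σ (a + κ / 2) + ε) := by positivity
  rcases le_or_gt ((N : ℝ) ^ κ) r.den with hc | hc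
  · have hβN : |β| * N ≤ 1 := by
      have h1 : (r.den : ℝ) * (|β| * N) ≤ r.den * 1 := by
        rw [mul_one]
        calc (r.den : ℝ) * (|β| * N) = r.den * |β| * N := by ring
          _ ≤ (N : ℝ) ^ κ := hqβN
          _ ≤ r.den := hc
      exact le_of_mul_le_mul_left h1 hq0
    have h1 := fin_part N ((r.num : ℝ) / r.den) β (C1 * (N : ℝ) ^ (σ + ε)) hβN fun M hM =>
      hmin N r.den hN hq r.num hcop hc hqQ M hM
    rw [hx]
    calc ‖F mu N ((r.num : ℝ) / r.den + β)‖ ≤ 9 * (C1 * (N : ℝ) ^ (σ + ε)) := h1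
      _ ≤ 9 * (C1 * (N : ℝ) ^ (max σ (a + κ / 2) + ε)) := by
        gcongr
        exact le_max_left _ _
      _ ≤ (9 * C1 + 2 * C2) * (N : ℝ) ^ (max σ (a + κ / 2) + ε) := by
        have h2 : 0 ≤ C2 * (N : ℝ) ^ (max σ (a + κ / 2) + ε) := by positivity
        linarith
  · have h1 := hmaj N r.den hN hq hqN r.num β hβ1
    rw [hx]
    have e1 : (N : ℝ) ^ (κ / 2) = Real.sqrt ((N : ℝ) ^ κ) := by
      rw [Real.sqrt_eq_rpow, ← Real.rpow_mul hN0.le]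
      congr 1
      ring
    have h2 : Real.sqrt r.den ≤ (N : ℝ) ^ (κ / 2) := by
      rw [e1]
      exact Real.sqrt_le_sqrt hc.le
    have h3 : Real.sqrt r.den * Real.sqrt (|β| * N) ≤ (N : ℝ) ^ (κ / 2) := by
      rw [← Real.sqrt_mul hq0.le, e1]
      apply Real.sqrt_le_sqrt
      rw [← mul_assoc]
      exact hqβN
    calc ‖F mu N ((r.num : ℝ) / r.den + β)‖
        ≤ C2 * (N : ℝ) ^ (a + ε) * (Real.sqrt r.den * (1 + Real.sqrt (|β| * N))) := h1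
      _ = C2 * (N : ℝ) ^ (a + ε) * (Real.sqrt r.den + Real.sqrt r.den * Real.sqrt (|β| * N)) := by
        ring
      _ ≤ C2 * (N : ℝ) ^ (a + ε) * ((N : ℝ) ^ (κ / 2) + (N : ℝ) ^ (κ / 2)) := by gcongr
      _ = 2 * C2 * ((N : ℝ) ^ (a + ε) * (N : ℝ) ^ (κ / 2)) := by ring
      _ = 2 * C2 * (N : ℝ) ^ (a + κ / 2 + ε) := by
        rw [← Real.rpow_add hN0]
        congr 2
        ring
      _ ≤ 2 * C2 * (N : ℝ) ^ (max σ (a + κ / 2) + ε) := by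
        gcongr
        exact le_max_right _ _
      _ ≤ (9 * C1 + 2 * C2) * (N : ℝ) ^ (max σ (a + κ / 2) + ε) := by
        have h2 : 0 ≤ C1 * (N : ℝ) ^ (max σ (a + κ / 2) + ε) := by positivity
        linarith

end Pool.Agent.Helper55.CM
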