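import Pool.Agent.Helper55.CM.Defs

/-!
# Block ID (helper76)
`μ = μ_Y - (cf - 1_{m = 1}) * μ` where `cf = μ_Y * 1`, `μ_Y = μ 1_{≤ Y}`.
Proof. `∑_{m ≤ N} cf Y m · F mu (N / m) (m x) = ∑_{m k ≤ N} cf Y m μ(k) e(m k x) = ∑_{n ≤ N} e(n x) (cf * μ)(n)`, and
`cf * μ = μ_Y * 1 * μ = μ_Y` (arithmetic functions, `ArithmeticFunction.coe_zeta_mul_coe_moebius` or so). `cf Y 1 = 1` as `Y ≥ 1`, and for
`1 < m ≤ Y` all divisors of `m` are `≤ Y`, so `cf Y m = ∑_{d ∣ m} μ(d) = 0`.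
-/

set_option autoImplicit false

namespace Pool.Agent.Helper55.CM

open Finset
open Pool.Agent.Helper92.GB (e F tw npi theta)

/-- the Moebius function up to `Y` -/
private def mY76 (Y : ℕ) : ArithmeticFunction ℤ :=
  ⟨fun n => if n ≤ Y then ArithmeticFunction.moebius n else 0, by simp⟩

private lemma mY76_apply (Y n : ℕ) : mY76 Y n = if n ≤ Y then ArithmeticFunction.moebius n else 0 := rfl

private lemma mY76_zeta (Y m : ℕ) : (mY76 Y * (ArithmeticFunction.zeta : ArithmeticFunction ℤ)) m = cf Y m := by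
  rw [ArithmeticFunction.coe_mul_zeta_apply, cf, Finset.sum_filter]
  rfl

private lemma cf_one76 {Y : ℕ} (hY : 1 ≤ Y) : cf Y 1 = 1 := by
  simp [cf, Finset.sum_filter, hY, mu]

private lemma cf_small76 {Y m : ℕ} (h1 : 1 < m) (h2 : m ≤ Y) : cf Y m = 0 := by
  have h3 : m.divisors.filter (fun d => d ≤ Y) = m.divisors := by
    rw [Finset.filter_eq_self]
    intro d hd
    exact (Nat.divisor_le hd).trans h2
  have h4 : ((ArithmeticFunction.moebius * ArithmeticFunction.zeta : ArithmeticFunction ℤ)) m = 0 := by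
    rw [ArithmeticFunction.moebius_mul_coe_zeta]
    exact ArithmeticFunction.one_apply_ne (by omega)
  rw [ArithmeticFunction.coe_mul_zeta_apply] at h4
  rw [cf, h3]
  exact h4

/-- sums over the pairs with product at most `N` -/
theorem sum_anti76 {M : Type*} [AddCommMonoid M] (N : ℕ) (G : ℕ → ℕ → M) :
    ∑ n ∈ Icc 1 N, ∑ p ∈ n.divisorsAntidiagonal, G p.1 p.2 =
      ∑ m ∈ Icc 1 N, ∑ k ∈ Icc 1 (N / m), G m k := by
  rw [Finset.sum_sigma', Finset.sum_sigma']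
  refine Finset.sum_bij' (fun a _ => ⟨a.2.1, a.2.2⟩) (fun b _ => ⟨b.1 * b.2, (b.1, b.2)⟩) ?_ ?_ ?_ ?_ ?_
  · rintro ⟨n, m, k⟩ h
    simp only [Finset.mem_sigma, Finset.mem_Icc, Nat.mem_divisorsAntidiagonal] at h ⊢
    obtain ⟨⟨h1, h2⟩, h3, h4⟩ := h
    have hm : 1 ≤ m := Nat.one_le_iff_ne_zero.2 fun h0 => by rw [h0, zero_mul] at h3; omega
    have hk : 1 ≤ k := Nat.one_le_iff_ne_zero.2 fun h0 => by rw [h0, mul_zero] at h3; omega
    refine ⟨⟨hm, ?_⟩, hk, ?_⟩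
    · nlinarith
    · rw [Nat.le_div_iff_mul_le hm]
      nlinarith
  · rintro ⟨m, k⟩ h
    simp only [Finset.mem_sigma, Finset.mem_Icc, Nat.mem_divisorsAntidiagonal] at h ⊢
    obtain ⟨⟨h1, h2⟩, h3, h4⟩ := h
    rw [Nat.le_div_iff_mul_le h1] at h4
    refine ⟨⟨by nlinarith, by nlinarith⟩, trivial, ?_⟩
    have : 0 < m * k := by positivity
    omega
  · rintro ⟨n, m, k⟩ h
    simp only [Finset.mem_sigma, Finset.mem_Icc, Nat.mem_divisorsAntidiagonal] at h
    obtain ⟨_, h3, _⟩ := h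
    simp only
    rw [h3]
  · rintro ⟨m, k⟩ _
    rfl
  · rintro ⟨n, m, k⟩ _
    rfl

/-- the order of summation over pairs with product at most `M` -/
theorem sum_swap76 {A : Type*} [AddCommMonoid A] (M : ℕ) (H : ℕ → ℕ → A) :
    ∑ l ∈ Icc 1 M, ∑ k ∈ Icc 1 (M / l), H l k = ∑ k ∈ Icc 1 M, ∑ l ∈ Icc 1 (M / k), H l k := by
  refine Finset.sum_comm' fun l k => ?_
  simp only [Finset.mem_Icc]
  constructor
  · rintro ⟨⟨h1, h2⟩, h3, h4⟩
    rw [Nat.le_div_iff_mul_le h1] at h4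
    refine ⟨⟨h1, ?_⟩, h3, ?_⟩
    · rw [Nat.le_div_iff_mul_le h3]
      nlinarith
    · nlinarith
  · rintro ⟨⟨h1, h2⟩, h3, h4⟩
    rw [Nat.le_div_iff_mul_le h3] at h2
    refine ⟨⟨h1, ?_⟩, h3, ?_⟩
    · nlinarith
    · rw [Nat.le_div_iff_mul_le h1]
      nlinarith

/-- a convolution against the exponential -/
private lemma conv_F76 (N : ℕ) (x : ℝ) (A : ArithmeticFunction ℤ) :
    ∑ n ∈ Icc 1 N, (((A * ArithmeticFunction.moebius) n : ℤ) : ℂ) * e (n * x) =
      ∑ m ∈ Icc 1 N, (A m : ℂ) * F mu (N / m) (m * x) := by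
  have h1 := sum_anti76 N (fun m k => (A m : ℂ) * ((ArithmeticFunction.moebius k : ℤ) : ℂ) * e (k * (m * x)))
  have h2 : ∑ n ∈ Icc 1 N, (((A * ArithmeticFunction.moebius) n : ℤ) : ℂ) * e (n * x) =
      ∑ n ∈ Icc 1 N, ∑ p ∈ n.divisorsAntidiagonal,
        (A p.1 : ℂ) * ((ArithmeticFunction.moebius p.2 : ℤ) : ℂ) * e (p.2 * (p.1 * x)) := by
    refine Finset.sum_congr rfl fun n _ => ?_
    rw [ArithmeticFunction.mul_apply]
    push_cast
    rw [Finset.sum_mul]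
    refine Finset.sum_congr rfl fun p hp => ?_
    rw [Nat.mem_divisorsAntidiagonal] at hp
    rw [← hp.1]
    push_cast
    congr 2
    ring
  rw [h2, h1]
  refine Finset.sum_congr rfl fun m _ => ?_
  unfold F mu
  rw [Finset.mul_sum]
  refine Finset.sum_congr rfl fun k _ => ?_
  ring

private lemma ident76 {N Y : ℕ} (hY : 1 ≤ Y) (hYN : Y ≤ N) (x : ℝ) :
    F mu N x = F mu Y x - ∑ m ∈ Ioc Y N, (cf Y m : ℂ) * F mu (N / m) ((m : ℝ) * x) := by
  have h1 := conv_F76 N x (mY76 Y * (ArithmeticFunction.zeta : ArithmeticFunction ℤ))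
  have h2 : mY76 Y * (ArithmeticFunction.zeta : ArithmeticFunction ℤ) * ArithmeticFunction.moebius = mY76 Y := by
    rw [mul_assoc, ArithmeticFunction.coe_zeta_mul_moebius, mul_one]
  rw [h2] at h1
  simp only [mY76_zeta] at h1
  have h3 : ∑ n ∈ Icc 1 N, ((mY76 Y n : ℤ) : ℂ) * e (n * x) = F mu Y x := by
    unfold F mu
    symm
    apply Finset.sum_subset_zero_on_sdiff (Finset.Icc_subset_Icc le_rfl hYN)
    · intro n hn
      rw [Finset.mem_sdiff, Finset.mem_Icc, Finset.mem_Icc] at hn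
      rw [mY76_apply, if_neg (by omega)]
      simp
    · intro n hn
      rw [Finset.mem_Icc] at hn
      rw [mY76_apply, if_pos hn.2]
  rw [h3] at h1
  have h4 : Icc 1 N = insert 1 (Ioc 1 Y ∪ Ioc Y N) := by
    ext n
    simp only [Finset.mem_Icc, Finset.mem_insert, Finset.mem_union, Finset.mem_Ioc]
    omega
  have h5 : ∑ m ∈ Icc 1 N, (cf Y m : ℂ) * F mu (N / m) (m * x) =
      F mu N x + ∑ m ∈ Ioc Y N, (cf Y m : ℂ) * F mu (N / m) (m * x) := by
    rw [h4, Finset.sum_insert (by simp; omega), Finset.sum_union ?_, cf_one76 hY]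
    · have h6 : ∑ m ∈ Ioc 1 Y, (cf Y m : ℂ) * F mu (N / m) (m * x) = 0 := by
        refine Finset.sum_eq_zero fun m hm => ?_
        rw [Finset.mem_Ioc] at hm
        rw [cf_small76 hm.1 hm.2]
        simp
      rw [h6]
      simp
    · rw [Finset.disjoint_left]
      intro n hn hn2
      rw [Finset.mem_Ioc] at hn hn2
      omega
  rw [h5] at h1
  rw [h1]
  ring

theorem id_F (Y N : ℕ) (hY : 1 ≤ Y) (x : ℝ) :
    F mu N x = F mu (min Y N) x - ∑ m ∈ Ioc Y N, (cf Y m : ℂ) * F mu (N / m) ((m : ℝ) * x) := by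
  rcases le_total Y N with h | h
  · rw [min_eq_left h]
    exact ident76 hY h x
  · rw [min_eq_right h, Finset.Ioc_eq_empty_of_le h]
    simp

end Pool.Agent.Helper55.CM
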