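import Pool.Agent.Helper55.CM.Defs
import Pool.Agent.Helper92.GB.U1
import Pool.Agent.Helper92.GB.U2

/-!
# Block MAJ (helper9)
Proof. As `U3_aux` in `Helper92/GB/U3.lean`. Take `δ = ε / 4` in `Tw a`. For `ψ` modulo `q`, `M ≤ N`, `|β'| M ≤ |β| N`: for `|t| ≤ 2 π |β'| M ≤ 2 π |β| N` and
`M' ≤ M` the twisted sum is at most `C (q (1 + 2 π |β| N) N) ^ δ M' ^ a`, and `M' ^ a ≤ √M · N ^ (a - 1/2)`. So `U1` and `U2` with
`A = 100 C (q (1 + 2 π |β| N) N) ^ δ N ^ (a - 1/2) (1 + √(|β| N))` give `A √(q N) (1 + log q)`, and `q ≤ N`, `|β| ≤ 1` bound the rest by `N ^ ε`.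
(`mu` is multiplicative on coprime arguments and `mu n ^ 2 = moebius n ^ 2`.)
-/

set_option autoImplicit false

namespace Pool.Agent.Helper55.CM

open Finset
open Pool.Agent.Helper92.GB (e F tw npi theta)

theorem major (a : ℝ) (ha : 1 / 2 ≤ a) (hT : Tw a) (ε : ℝ) (hε : 0 < ε) : ∃ C : ℝ, 0 ≤ C ∧
    ∀ N q : ℕ, 1 ≤ N → 1 ≤ q → q ≤ N → ∀ (b : ℤ) (β : ℝ), |β| ≤ 1 →
      ‖F mu N ((b : ℝ) / q + β)‖ ≤ C * (N : ℝ) ^ (a + ε) * (Real.sqrt q * (1 + Real.sqrt (|β| * N))) := by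
  set δ : ℝ := ε / 4 with hδdef
  have hδ : 0 < δ := by positivity
  obtain ⟨C0, hC0⟩ := hT δ hδ
  set C : ℝ := max C0 0 with hCdef
  have hC : 0 ≤ C := le_max_right _ _
  have hb : ∀ (q : ℕ) (χ : DirichletCharacter ℂ q) (t : ℝ) (N : ℕ),
      1 ≤ q → 1 ≤ N → ‖tw mu χ t N‖ ≤ C * ((q : ℝ) * (1 + |t|) * N) ^ δ * (N : ℝ) ^ a := by
    intro q χ t N h1 h2
    refine (hC0 q χ t N h1 h2).trans ?_
    have : C0 ≤ C := le_max_left _ _
    gcongr
  refine ⟨100 * C * 8 ^ δ * (1 + 1 / δ), by positivity, ?_⟩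
  intro N q hN hq hqN b β hβ1
  have hN1 : (1 : ℝ) ≤ N := by exact_mod_cast hN
  have hN0 : (0 : ℝ) < N := by linarith
  have hq1 : (1 : ℝ) ≤ q := by exact_mod_cast hq
  have hq0 : (0 : ℝ) < q := by linarith
  have hqN' : (q : ℝ) ≤ N := by exact_mod_cast hqN
  have hmul : ∀ m n : ℕ, m.Coprime n → mu (m * n) = mu m * mu n := fun m n h =>
    ArithmeticFunction.isMultiplicative_moebius.map_mul_of_coprime h
  set Z : ℝ := ((q : ℝ) * (1 + 2 * Real.pi * |β| * N) * N) ^ δ with hZ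
  have hZ0 : 0 ≤ Z := by positivity
  have hmain : ‖F mu N ((b : ℝ) / q + β)‖ ≤
      (100 * C * Z * (N : ℝ) ^ (a - 1 / 2) * (1 + Real.sqrt (|β| * N))) * Real.sqrt (q * N) *
        (1 + Real.log q) := by
    refine Pool.Agent.Helper92.GB.U2 mu hmul (fun n => rfl) q hq b β _ N (by positivity) ?_
    intro ψ M β' hMN hβ
    have hMN' : (M : ℝ) ≤ N := by exact_mod_cast hMN
    have h1 := Pool.Agent.Helper92.GB.U1 (fun n => (mu n : ℂ) * ψ (n : ZMod q)) β'
      (C * Z * (M : ℝ) ^ a) M (by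
        intro t ht M' hM'
        rcases Nat.eq_zero_or_pos M' with h0 | h0
        · subst h0
          simp
          positivity
        · have h2 := hb q ψ t M' hq h0
          unfold tw at h2
          refine h2.trans ?_
          have hM'' : (M' : ℝ) ≤ M := by exact_mod_cast hM'
          have hM0 : (0 : ℝ) < M' := by exact_mod_cast h0
          have ht' : |t| ≤ 2 * Real.pi * |β| * N := by
            calc |t| ≤ 2 * Real.pi * |β'| * M := ht
              _ = 2 * Real.pi * (|β'| * M) := by ring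
              _ ≤ 2 * Real.pi * (|β| * N) := by gcongr
              _ = 2 * Real.pi * |β| * N := by ring
          rw [hZ]
          gcongr
          exact hM'.trans hMN)
    refine h1.trans ?_
    have h3 : Real.sqrt (|β'| * M) ≤ Real.sqrt (|β| * N) := Real.sqrt_le_sqrt hβ
    have h4 : (M : ℝ) ^ a ≤ (N : ℝ) ^ (a - 1 / 2) * Real.sqrt M := by
      rcases Nat.eq_zero_or_pos M with h0 | h0
      · subst h0
        rw [Nat.cast_zero, Real.zero_rpow (by linarith), Real.sqrt_zero, mul_zero]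
      · have hM0 : (0 : ℝ) < M := by exact_mod_cast h0
        have e1 : (M : ℝ) ^ a = (M : ℝ) ^ (a - 1 / 2) * Real.sqrt M := by
          rw [Real.sqrt_eq_rpow, ← Real.rpow_add hM0]
          congr 1
          ring
        rw [e1]
        have h5 : (M : ℝ) ^ (a - 1 / 2) ≤ (N : ℝ) ^ (a - 1 / 2) :=
          Real.rpow_le_rpow hM0.le hMN' (by linarith)
        gcongr
    calc 100 * (C * Z * (M : ℝ) ^ a) * (1 + Real.sqrt (|β'| * M))
        ≤ 100 * (C * Z * ((N : ℝ) ^ (a - 1 / 2) * Real.sqrt M)) * (1 + Real.sqrt (|β| * N)) := by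
          gcongr
      _ = _ := by ring
  refine hmain.trans ?_
  -- the first factor
  have hf1 : Z ≤ 8 ^ δ * (N : ℝ) ^ (3 * δ) := by
    have h1 : (q : ℝ) * (1 + 2 * Real.pi * |β| * N) * N ≤ 8 * (N : ℝ) ^ 3 := by
      have hpi : Real.pi ≤ 3.5 := by linarith [Real.pi_lt_d2]
      have h2 : 1 + 2 * Real.pi * |β| * N ≤ 8 * N := by
        have h3 : 2 * Real.pi * |β| * N ≤ 7 * N := by
          calc 2 * Real.pi * |β| * N ≤ 2 * 3.5 * 1 * N := by gcongr
            _ = 7 * N := by norm_num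
        linarith
      calc (q : ℝ) * (1 + 2 * Real.pi * |β| * N) * N ≤ N * (8 * N) * N := by gcongr
        _ = 8 * (N : ℝ) ^ 3 := by ring
    calc Z ≤ (8 * (N : ℝ) ^ 3) ^ δ := by
          rw [hZ]
          gcongr
      _ = 8 ^ δ * (N : ℝ) ^ (3 * δ) := by
        rw [Real.mul_rpow (by norm_num) (by positivity), ← Real.rpow_natCast,
          ← Real.rpow_mul hN0.le]
        norm_num
  have hf3 : 1 + Real.log q ≤ (1 + 1 / δ) * (N : ℝ) ^ δ := by
    have h1 : Real.log q ≤ (q : ℝ) ^ δ / δ := Real.log_le_rpow_div hq0.le hδ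
    have h2 : (q : ℝ) ^ δ ≤ (N : ℝ) ^ δ := by gcongr
    have h3 : (1 : ℝ) ≤ (N : ℝ) ^ δ := Real.one_le_rpow hN1 hδ.le
    calc 1 + Real.log q ≤ (N : ℝ) ^ δ + (N : ℝ) ^ δ / δ := by
          have h4 : (q : ℝ) ^ δ / δ ≤ (N : ℝ) ^ δ / δ := by gcongr
          linarith
      _ = (1 + 1 / δ) * (N : ℝ) ^ δ := by ring
  have hlog0 : 0 ≤ Real.log q := Real.log_nonneg hq1
  have hsN : (N : ℝ) ^ (a - 1 / 2) * Real.sqrt (q * N) = (N : ℝ) ^ a * Real.sqrt q := by
    rw [Real.sqrt_mul hq0.le]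
    have e1 : (N : ℝ) ^ (a - 1 / 2) * Real.sqrt N = (N : ℝ) ^ a := by
      rw [Real.sqrt_eq_rpow, ← Real.rpow_add hN0]
      congr 1
      ring
    rw [← e1]
    ring
  calc (100 * C * Z * (N : ℝ) ^ (a - 1 / 2) * (1 + Real.sqrt (|β| * N))) * Real.sqrt (q * N) *
        (1 + Real.log q)
      = 100 * C * Z * ((N : ℝ) ^ (a - 1 / 2) * Real.sqrt (q * N)) * (1 + Real.sqrt (|β| * N)) *
        (1 + Real.log q) := by ring
    _ ≤ 100 * C * (8 ^ δ * (N : ℝ) ^ (3 * δ)) * ((N : ℝ) ^ a * Real.sqrt q) *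
        (1 + Real.sqrt (|β| * N)) * ((1 + 1 / δ) * (N : ℝ) ^ δ) := by
        rw [hsN]
        gcongr
    _ = 100 * C * 8 ^ δ * (1 + 1 / δ) * ((N : ℝ) ^ a * (N : ℝ) ^ (3 * δ) * (N : ℝ) ^ δ) *
        (Real.sqrt q * (1 + Real.sqrt (|β| * N))) := by ring
    _ = _ := by
        rw [← Real.rpow_add hN0, ← Real.rpow_add hN0]
        congr 3
        rw [hδdef]
        ring

end Pool.Agent.Helper55.CM
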