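import Pool.Agent.Helper55.CM.Defs

/-!
# Block MINOR (helper55)
The choice of the parameters: `Y = N ^ (3τ - 2)`, `Z = N ^ (2τ - 1)`.
-/

set_option autoImplicit false

namespace Pool.Agent.Helper55.CM

open Finset
open Pool.Agent.Helper92.GB (e F tw npi theta)

lemma tau_eq (c : ℝ) (hc : 1 / 2 ≤ c) : (2 + 3 * c) * tau c = 1 + 3 * c := by
  unfold tau
  have : (2 : ℝ) + 3 * c ≠ 0 := by linarith
  field_simp

lemma kap_eq (c : ℝ) (hc : 1 / 2 ≤ c) : kap c = c + (1 - c) * tau c := by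
  unfold tau kap
  have : (2 : ℝ) + 3 * c ≠ 0 := by linarith
  field_simp
  ring

lemma tau_lt (c : ℝ) (hc : 1 / 2 ≤ c) : tau c < 1 := by
  unfold tau
  rw [div_lt_one (by linarith)]
  linarith

lemma tau_ge (c : ℝ) (hc : 1 / 2 ≤ c) : 5 / 7 ≤ tau c := by
  unfold tau
  rw [le_div_iff₀ (by linarith)]
  linarith

lemma norm_e (x : ℝ) : ‖e x‖ = 1 := by
  unfold Pool.Agent.Helper92.GB.e
  rw [show (2 * Real.pi * Complex.I * x : ℂ) = ((2 * Real.pi * x : ℝ) : ℂ) * Complex.I by push_cast; ring,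
    Complex.norm_exp_ofReal_mul_I]

lemma abs_mu_le (n : ℕ) : |(mu n : ℝ)| ≤ 1 := by
  unfold mu
  exact_mod_cast ArithmeticFunction.abs_moebius_le_one

lemma norm_F_le (M : ℕ) (x : ℝ) : ‖F mu M x‖ ≤ M := by
  unfold Pool.Agent.Helper92.GB.F
  calc ‖∑ n ∈ Icc 1 M, (mu n : ℂ) * e (n * x)‖ ≤ ∑ n ∈ Icc 1 M, ‖(mu n : ℂ) * e (n * x)‖ := norm_sum_le _ _
    _ ≤ ∑ n ∈ Icc 1 M, (1 : ℝ) := by
        refine Finset.sum_le_sum fun n _ => ?_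
        rw [norm_mul, norm_e, mul_one, Complex.norm_intCast]
        exact abs_mu_le n
    _ = M := by simp

/-- The type II bound (block TII). -/
def TypeIIBd (c : ℝ) : Prop := ∀ ε : ℝ, 0 < ε → ∃ C : ℝ, 0 < C ∧ ∀ N Y Z : ℕ, 1 ≤ Y → Y ≤ Z → Z ≤ N →
  ∀ (a : ℤ) (b : ℕ), 1 ≤ b → b ≤ N → IsCoprime a (b : ℤ) → ∀ al : ℕ → ℝ, (∀ m, |al m| ≤ (m.divisors.card : ℝ)) →
    ∑ m ∈ Ioc Y Z, |al m| * ‖F mu (N / m) ((a : ℝ) * m / b)‖ ≤ C * (N : ℝ) ^ ε *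
      Real.sqrt ((Z : ℝ) * N + (N : ℝ) ^ (1 + c) * (Y : ℝ) ^ (-c) + (N : ℝ) ^ (1 + c) * (Z : ℝ) ^ (1 - c) / b +
        (N : ℝ) ^ c * (Z : ℝ) ^ (1 - c) * b)

/-- The type I bound (block T1). -/
def TypeIBd : Prop := ∀ ε : ℝ, 0 < ε → ∃ C : ℝ, 0 ≤ C ∧ ∀ N Y Z q : ℕ, ∀ b : ℤ, 1 ≤ Y → Y ≤ Z → Z ≤ N → 1 ≤ q →
  q ≤ N → IsCoprime b (q : ℤ) →
    ‖∑ m ∈ Ioc Z N, (cf Y m : ℂ) * F mu (N / m) ((m : ℝ) * ((b : ℝ) / q))‖ ≤
      C * (N : ℝ) ^ ε * ((N : ℝ) / q + (Y : ℝ) * N / Z + q)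

lemma cf_le (Y m : ℕ) : |(cf Y m : ℝ)| ≤ (m.divisors.card : ℝ) := by
  unfold cf
  push_cast
  calc |∑ d ∈ m.divisors.filter (fun d => d ≤ Y), (mu d : ℝ)|
      ≤ ∑ d ∈ m.divisors.filter (fun d => d ≤ Y), |(mu d : ℝ)| := Finset.abs_sum_le_sum_abs _ _
    _ ≤ ∑ d ∈ m.divisors.filter (fun d => d ≤ Y), (1 : ℝ) := Finset.sum_le_sum fun d _ => abs_mu_le d
    _ = ((m.divisors.filter (fun d => d ≤ Y)).card : ℝ) := by simp
    _ ≤ (m.divisors.card : ℝ) := by exact_mod_cast Finset.card_filter_le _ _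

/-- The pointwise bound in terms of the denominator. -/
theorem qform_aux (c : ℝ) (hc1 : 1 / 2 ≤ c) (hc2 : c ≤ 1) (hII : TypeIIBd c) (hI : TypeIBd)
    (hid : ∀ (Y N : ℕ), 1 ≤ Y → ∀ x : ℝ,
      F mu N x = F mu (min Y N) x - ∑ m ∈ Ioc Y N, (cf Y m : ℂ) * F mu (N / m) ((m : ℝ) * x))
    (ε : ℝ) (hε : 0 < ε) : ∃ C : ℝ, 0 ≤ C ∧
    ∀ N q : ℕ, 1 ≤ q → q ≤ N → ∀ b : ℤ, IsCoprime b (q : ℤ) → ∀ M : ℕ, M ≤ N →
      ‖F mu M ((b : ℝ) / q)‖ ≤ C * (N : ℝ) ^ ε * ((N : ℝ) ^ tau c + (N : ℝ) ^ kap c / Real.sqrt q + (N : ℝ) / q +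
        (N : ℝ) ^ (kap c - 1 / 2) * Real.sqrt q + q) := by
  obtain ⟨C1, hC1, h1⟩ := hII ε hε
  obtain ⟨C2, hC2, h2⟩ := hI ε hε
  have ht1 := tau_lt c hc1
  have ht0 := tau_ge c hc1
  have hte := tau_eq c hc1
  have hke := kap_eq c hc1
  refine ⟨1 + 2 * C1 + 2 * C2, by positivity, ?_⟩
  intro N q hq hqN b hb M hMN
  have hN : 1 ≤ N := hq.trans hqN
  have hN1 : (1 : ℝ) ≤ N := by exact_mod_cast hN
  have hN0 : (0 : ℝ) < N := by linarith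
  have hq1 : (1 : ℝ) ≤ q := by exact_mod_cast hq
  have hq0 : (0 : ℝ) < q := by linarith
  have hMN' : (M : ℝ) ≤ N := by exact_mod_cast hMN
  have hNe : (1 : ℝ) ≤ (N : ℝ) ^ ε := Real.one_le_rpow hN1 hε.le
  -- the right side
  obtain ⟨B, hB⟩ : ∃ B : ℝ, B = (N : ℝ) ^ tau c + (N : ℝ) ^ kap c / Real.sqrt q + (N : ℝ) / q +
        (N : ℝ) ^ (kap c - 1 / 2) * Real.sqrt q + q := ⟨_, rfl⟩
  rw [← hB]
  have p1 : 0 ≤ (N : ℝ) ^ tau c := by positivity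
  have p2 : 0 ≤ (N : ℝ) ^ kap c / Real.sqrt q := by positivity
  have p3 : 0 ≤ (N : ℝ) / q := by positivity
  have p4 : 0 ≤ (N : ℝ) ^ (kap c - 1 / 2) * Real.sqrt q := by positivity
  have hB0 : 0 ≤ B := by rw [hB]; positivity
  have hfin : ∀ A : ℝ, 0 ≤ A → A ≤ (1 + 2 * C1 + 2 * C2) → A * (N : ℝ) ^ ε * B ≤ (1 + 2 * C1 + 2 * C2) * (N : ℝ) ^ ε * B := by
    intro A hA0 hA
    gcongr
  -- parameters
  obtain ⟨Y, hY⟩ : ∃ Y : ℕ, Y = ⌊(N : ℝ) ^ (3 * tau c - 2)⌋₊ := ⟨_, rfl⟩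
  obtain ⟨Z, hZ⟩ : ∃ Z : ℕ, Z = ⌊(N : ℝ) ^ (2 * tau c - 1)⌋₊ := ⟨_, rfl⟩
  have hYr1 : (1 : ℝ) ≤ (N : ℝ) ^ (3 * tau c - 2) := Real.one_le_rpow hN1 (by linarith)
  have hZr1 : (1 : ℝ) ≤ (N : ℝ) ^ (2 * tau c - 1) := Real.one_le_rpow hN1 (by linarith)
  have hY1 : 1 ≤ Y := by
    rw [hY]; exact Nat.le_floor (by simpa using hYr1)
  have hZ1 : 1 ≤ Z := by
    rw [hZ]; exact Nat.le_floor (by simpa using hZr1)
  have hYle : (Y : ℝ) ≤ (N : ℝ) ^ (3 * tau c - 2) := by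
    rw [hY]; exact Nat.floor_le (by positivity)
  have hZle : (Z : ℝ) ≤ (N : ℝ) ^ (2 * tau c - 1) := by
    rw [hZ]; exact Nat.floor_le (by positivity)
  have hYge : (N : ℝ) ^ (3 * tau c - 2) / 2 ≤ (Y : ℝ) := by
    have h3 : (N : ℝ) ^ (3 * tau c - 2) < (Y : ℝ) + 1 := by rw [hY]; exact Nat.lt_floor_add_one _
    have h4 : (1 : ℝ) ≤ Y := by exact_mod_cast hY1
    linarith
  have hZge : (N : ℝ) ^ (2 * tau c - 1) / 2 ≤ (Z : ℝ) := by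
    have h3 : (N : ℝ) ^ (2 * tau c - 1) < (Z : ℝ) + 1 := by rw [hZ]; exact Nat.lt_floor_add_one _
    have h4 : (1 : ℝ) ≤ Z := by exact_mod_cast hZ1
    linarith
  have hYZ : Y ≤ Z := by
    rw [hY, hZ]
    exact Nat.floor_mono (Real.rpow_le_rpow_of_exponent_le hN1 (by linarith))
  rcases Nat.lt_or_ge M Z with hMZ | hMZ
  · -- M < Z
    have h3 : ‖F mu M ((b : ℝ) / q)‖ ≤ B := by
      calc ‖F mu M ((b : ℝ) / q)‖ ≤ M := norm_F_le M _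
        _ ≤ Z := by exact_mod_cast hMZ.le
        _ ≤ (N : ℝ) ^ (2 * tau c - 1) := hZle
        _ ≤ (N : ℝ) ^ tau c := Real.rpow_le_rpow_of_exponent_le hN1 (by linarith)
        _ ≤ B := by rw [hB]; linarith
    calc ‖F mu M ((b : ℝ) / q)‖ ≤ 1 * 1 * B := by linarith
      _ ≤ 1 * (N : ℝ) ^ ε * B := by gcongr
      _ ≤ _ := hfin 1 (by norm_num) (by linarith)
  rcases Nat.lt_or_ge M q with hMq | hMq
  · have h3 : ‖F mu M ((b : ℝ) / q)‖ ≤ B := by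
      calc ‖F mu M ((b : ℝ) / q)‖ ≤ M := norm_F_le M _
        _ ≤ q := by exact_mod_cast hMq.le
        _ ≤ B := by rw [hB]; linarith
    calc ‖F mu M ((b : ℝ) / q)‖ ≤ 1 * 1 * B := by linarith
      _ ≤ 1 * (N : ℝ) ^ ε * B := by gcongr
      _ ≤ _ := hfin 1 (by norm_num) (by linarith)
  -- the main case
  have hM1 : 1 ≤ M := hq.trans hMq
  have hM0 : (0 : ℝ) < M := by exact_mod_cast hM1
  have hYM : Y ≤ M := hYZ.trans hMZ
  have hsplit : ∑ m ∈ Ioc Y M, (cf Y m : ℂ) * F mu (M / m) ((m : ℝ) * ((b : ℝ) / q)) =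
      ∑ m ∈ Ioc Y Z, (cf Y m : ℂ) * F mu (M / m) ((m : ℝ) * ((b : ℝ) / q)) +
      ∑ m ∈ Ioc Z M, (cf Y m : ℂ) * F mu (M / m) ((m : ℝ) * ((b : ℝ) / q)) := by
    rw [← Finset.sum_union (Finset.Ioc_disjoint_Ioc_of_le le_rfl), Finset.Ioc_union_Ioc_eq_Ioc hYZ hMZ]
  have e1 : ‖F mu (min Y M) ((b : ℝ) / q)‖ ≤ B := by
    calc ‖F mu (min Y M) ((b : ℝ) / q)‖ ≤ ((min Y M : ℕ) : ℝ) := norm_F_le _ _
      _ ≤ Y := by exact_mod_cast min_le_left _ _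
      _ ≤ (N : ℝ) ^ (3 * tau c - 2) := hYle
      _ ≤ (N : ℝ) ^ tau c := Real.rpow_le_rpow_of_exponent_le hN1 (by linarith)
      _ ≤ B := by rw [hB]; linarith
  have e2 : ‖∑ m ∈ Ioc Y Z, (cf Y m : ℂ) * F mu (M / m) ((m : ℝ) * ((b : ℝ) / q))‖ ≤ 2 * C1 * (N : ℝ) ^ ε * B := by
    have g1 := h1 M Y Z hY1 hYZ hMZ b q hq hMq hb (fun m => (cf Y m : ℝ)) (fun m => cf_le Y m)
    have g2 : ‖∑ m ∈ Ioc Y Z, (cf Y m : ℂ) * F mu (M / m) ((m : ℝ) * ((b : ℝ) / q))‖ ≤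
        ∑ m ∈ Ioc Y Z, |(cf Y m : ℝ)| * ‖F mu (M / m) ((b : ℝ) * m / q)‖ := by
      refine (norm_sum_le _ _).trans (Finset.sum_le_sum fun m _ => ?_)
      rw [norm_mul, Complex.norm_intCast, show (m : ℝ) * ((b : ℝ) / q) = (b : ℝ) * m / q by ring]
    refine g2.trans (g1.trans ?_)
    have hsq : Real.sqrt ((Z : ℝ) * M + (M : ℝ) ^ (1 + c) * (Y : ℝ) ^ (-c) + (M : ℝ) ^ (1 + c) * (Z : ℝ) ^ (1 - c) / q +
        (M : ℝ) ^ c * (Z : ℝ) ^ (1 - c) * q) ≤ 2 * B := by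
      rw [Real.sqrt_le_left (by positivity)]
      have k1 : (Z : ℝ) * M ≤ ((N : ℝ) ^ tau c) ^ 2 := by
        calc (Z : ℝ) * M ≤ (N : ℝ) ^ (2 * tau c - 1) * N := by gcongr
          _ = ((N : ℝ) ^ tau c) ^ 2 := by
            rw [← Real.rpow_add_one hN0.ne', ← Real.rpow_natCast, ← Real.rpow_mul hN0.le]
            congr 1; push_cast; ring
      have k2 : (M : ℝ) ^ (1 + c) * (Y : ℝ) ^ (-c) ≤ 2 * ((N : ℝ) ^ tau c) ^ 2 := by
        calc (M : ℝ) ^ (1 + c) * (Y : ℝ) ^ (-c) ≤ (N : ℝ) ^ (1 + c) * ((N : ℝ) ^ (3 * tau c - 2) / 2) ^ (-c) := by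
              apply mul_le_mul
              · exact Real.rpow_le_rpow hM0.le hMN' (by linarith)
              · exact Real.rpow_le_rpow_of_nonpos (by positivity) hYge (by linarith)
              · positivity
              · positivity
          _ = 2 ^ c * ((N : ℝ) ^ (1 + c) * (N : ℝ) ^ ((3 * tau c - 2) * (-c))) := by
              rw [Real.div_rpow (by positivity) (by norm_num), ← Real.rpow_mul hN0.le, Real.rpow_neg (by norm_num : (0:ℝ) ≤ 2)]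
              field_simp
          _ = 2 ^ c * ((N : ℝ) ^ tau c) ^ 2 := by
              rw [← Real.rpow_add hN0, ← Real.rpow_natCast, ← Real.rpow_mul hN0.le]
              congr 2
              push_cast
              linarith
          _ ≤ 2 * ((N : ℝ) ^ tau c) ^ 2 := by
              have : (2 : ℝ) ^ c ≤ 2 ^ (1 : ℝ) := Real.rpow_le_rpow_of_exponent_le (by norm_num) hc2
              rw [Real.rpow_one] at this
              gcongr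
      have hZc : (Z : ℝ) ^ (1 - c) ≤ (N : ℝ) ^ ((2 * tau c - 1) * (1 - c)) := by
        rw [Real.rpow_mul hN0.le]
        exact Real.rpow_le_rpow (by positivity) hZle (by linarith)
      have k3 : (M : ℝ) ^ (1 + c) * (Z : ℝ) ^ (1 - c) / q ≤ ((N : ℝ) ^ kap c / Real.sqrt q) ^ 2 := by
        rw [div_pow, Real.sq_sqrt hq0.le]
        apply div_le_div_of_nonneg_right _ hq0.le
        calc (M : ℝ) ^ (1 + c) * (Z : ℝ) ^ (1 - c) ≤ (N : ℝ) ^ (1 + c) * (N : ℝ) ^ ((2 * tau c - 1) * (1 - c)) := by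
              apply mul_le_mul
              · exact Real.rpow_le_rpow hM0.le hMN' (by linarith)
              · exact hZc
              · positivity
              · positivity
          _ = ((N : ℝ) ^ kap c) ^ 2 := by
              rw [← Real.rpow_add hN0, ← Real.rpow_natCast, ← Real.rpow_mul hN0.le, hke]
              congr 1
              push_cast
              ring
      have k4 : (M : ℝ) ^ c * (Z : ℝ) ^ (1 - c) * q ≤ ((N : ℝ) ^ (kap c - 1 / 2) * Real.sqrt q) ^ 2 := by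
        rw [mul_pow, Real.sq_sqrt hq0.le]
        apply mul_le_mul_of_nonneg_right _ hq0.le
        calc (M : ℝ) ^ c * (Z : ℝ) ^ (1 - c) ≤ (N : ℝ) ^ c * (N : ℝ) ^ ((2 * tau c - 1) * (1 - c)) := by
              apply mul_le_mul
              · exact Real.rpow_le_rpow hM0.le hMN' (by linarith)
              · exact hZc
              · positivity
              · positivity
          _ = ((N : ℝ) ^ (kap c - 1 / 2)) ^ 2 := by
              rw [← Real.rpow_add hN0, ← Real.rpow_natCast, ← Real.rpow_mul hN0.le, hke]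
              congr 1
              push_cast
              ring
      have hB2 : ((N : ℝ) ^ tau c) ^ 2 + ((N : ℝ) ^ kap c / Real.sqrt q) ^ 2 +
          ((N : ℝ) ^ (kap c - 1 / 2) * Real.sqrt q) ^ 2 ≤ B ^ 2 := by
        have h5 : (N : ℝ) ^ tau c + (N : ℝ) ^ kap c / Real.sqrt q + (N : ℝ) ^ (kap c - 1 / 2) * Real.sqrt q ≤ B := by
          rw [hB]; linarith
        have h6 := pow_le_pow_left₀ (by positivity) h5 2
        refine le_trans ?_ h6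
        nlinarith [mul_nonneg p1 p2, mul_nonneg p1 p4, mul_nonneg p2 p4]
      have h7 : ((N : ℝ) ^ tau c) ^ 2 ≤ B ^ 2 := pow_le_pow_left₀ p1 (by rw [hB]; linarith) 2
      nlinarith
    calc C1 * (M : ℝ) ^ ε * Real.sqrt ((Z : ℝ) * M + (M : ℝ) ^ (1 + c) * (Y : ℝ) ^ (-c) +
          (M : ℝ) ^ (1 + c) * (Z : ℝ) ^ (1 - c) / q + (M : ℝ) ^ c * (Z : ℝ) ^ (1 - c) * q)
        ≤ C1 * (N : ℝ) ^ ε * (2 * B) := by gcongr
      _ = 2 * C1 * (N : ℝ) ^ ε * B := by ring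
  have e3 : ‖∑ m ∈ Ioc Z M, (cf Y m : ℂ) * F mu (M / m) ((m : ℝ) * ((b : ℝ) / q))‖ ≤ 2 * C2 * (N : ℝ) ^ ε * B := by
    refine (h2 M Y Z q b hY1 hYZ hMZ hq hMq hb).trans ?_
    have g1 : (Y : ℝ) * M / Z ≤ 2 * (N : ℝ) ^ tau c := by
      have hZ0 : (0 : ℝ) < Z := by exact_mod_cast hZ1
      rw [div_le_iff₀ hZ0]
      calc (Y : ℝ) * M ≤ (N : ℝ) ^ (3 * tau c - 2) * N := by gcongr
        _ = 2 * (N : ℝ) ^ tau c * ((N : ℝ) ^ (2 * tau c - 1) / 2) := by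
            rw [← Real.rpow_add_one hN0.ne']
            have : (N : ℝ) ^ (3 * tau c - 2 + 1) = (N : ℝ) ^ tau c * (N : ℝ) ^ (2 * tau c - 1) := by
              rw [← Real.rpow_add hN0]; congr 1; ring
            rw [this]; ring
        _ ≤ 2 * (N : ℝ) ^ tau c * Z := by gcongr
    have g2 : (M : ℝ) / q + (Y : ℝ) * M / Z + q ≤ 2 * B := by
      have : (M : ℝ) / q ≤ (N : ℝ) / q := by gcongr
      rw [hB]; linarith
    calc C2 * (M : ℝ) ^ ε * ((M : ℝ) / q + (Y : ℝ) * M / Z + q) ≤ C2 * (N : ℝ) ^ ε * (2 * B) := by gcongr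
      _ = 2 * C2 * (N : ℝ) ^ ε * B := by ring
  rw [hid Y M hY1, hsplit]
  calc ‖F mu (min Y M) ((b : ℝ) / q) - (∑ m ∈ Ioc Y Z, (cf Y m : ℂ) * F mu (M / m) ((m : ℝ) * ((b : ℝ) / q)) +
      ∑ m ∈ Ioc Z M, (cf Y m : ℂ) * F mu (M / m) ((m : ℝ) * ((b : ℝ) / q)))‖
      ≤ ‖F mu (min Y M) ((b : ℝ) / q)‖ + (‖∑ m ∈ Ioc Y Z, (cf Y m : ℂ) * F mu (M / m) ((m : ℝ) * ((b : ℝ) / q))‖ +
      ‖∑ m ∈ Ioc Z M, (cf Y m : ℂ) * F mu (M / m) ((m : ℝ) * ((b : ℝ) / q))‖) := by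
        refine (norm_sub_le _ _).trans ?_
        gcongr
        exact norm_add_le _ _
    _ ≤ B + (2 * C1 * (N : ℝ) ^ ε * B + 2 * C2 * (N : ℝ) ^ ε * B) := by linarith
    _ ≤ 1 * (N : ℝ) ^ ε * B + (2 * C1 * (N : ℝ) ^ ε * B + 2 * C2 * (N : ℝ) ^ ε * B) := by
        have : 1 * B ≤ (N : ℝ) ^ ε * B := by gcongr
        linarith
    _ = (1 + 2 * C1 + 2 * C2) * (N : ℝ) ^ ε * B := by ring

end Pool.Agent.Helper55.CM
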