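import Pool.Agent.Helper55.CM.Defs
import Pool.Agent.Helper55.CM.ID
import Pool.Agent.Helper19.V4.TypeOne

/-!
# Block T1 (helper76)
The type I part at a rational point.
Proof. `∑_{Z < m ≤ N} cf Y m F mu (N / m) (m x) = ∑_{Z < m ≤ N} ∑_{n ≤ N / m} ∑_{d l = m, d ≤ Y} μ(d) μ(n) e(d l n x)`; for fixed
`d ≤ Y` and `n` (here `n ≤ N / m` and `m > Z`, so `n ≤ N / Z`) the variable `l` runs over `Ioc (Z / d) (N / (d n))` (natural divisions). So the
norm is at most `∑_{d ≤ Y} ∑_{n ≤ N / Z} ‖∑_{l ∈ Ioc (Z / d) (N / (d n))} e(d n l x)‖`. Group by `k = d n ≤ Y (N / Z)`: each `k` occurs for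
at most `k.divisors.card ≤ D` pairs, take the divisor `d(k)` for which the norm is greatest, and use `Pool.Helper19.V4.type_one` with `M1 = Y (N / Z)`,
`u k = Z / d(k)`, `v k = N / k`, `X = N`. (`ex y = e y` up to the order of the factors in the exponent.)
-/

set_option autoImplicit false

namespace Pool.Agent.Helper55.CM

open Finset
open Pool.Agent.Helper92.GB (e F tw npi theta)

/-- the inner sum -/
private noncomputable def S76 (Z N : ℕ) (x : ℝ) (d k : ℕ) : ℂ :=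
  ∑ l ∈ Ioc (Z / d) (N / k), e ((k : ℝ) * l * x)

private lemma abs_mu76 (n : ℕ) : ‖(mu n : ℂ)‖ ≤ 1 := by
  rw [Complex.norm_intCast]
  unfold mu
  exact_mod_cast ArithmeticFunction.abs_moebius_le_one

/-- the terms -/
private noncomputable def G76 (Y Z N : ℕ) (x : ℝ) (d l : ℕ) : ℂ :=
  if d ≤ Y ∧ Z < d * l then (mu d : ℂ) * F mu (N / (d * l)) (((d * l : ℕ) : ℝ) * x) else 0

private lemma stepA76 (Y Z N : ℕ) (x : ℝ) :
    ∑ m ∈ Ioc Z N, (cf Y m : ℂ) * F mu (N / m) ((m : ℝ) * x) =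
      ∑ m ∈ Icc 1 N, ∑ p ∈ m.divisorsAntidiagonal, G76 Y Z N x p.1 p.2 := by
  have h1 : ∀ m ∈ Icc 1 N, ∑ p ∈ m.divisorsAntidiagonal, G76 Y Z N x p.1 p.2 =
      if Z < m then (cf Y m : ℂ) * F mu (N / m) ((m : ℝ) * x) else 0 := by
    intro m hm
    have h2 : ∀ p ∈ m.divisorsAntidiagonal, G76 Y Z N x p.1 p.2 =
        (fun d _ => if d ≤ Y ∧ Z < m then (mu d : ℂ) * F mu (N / m) ((m : ℝ) * x) else 0) p.1 p.2 := by
      intro p hp
      rw [Nat.mem_divisorsAntidiagonal] at hp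
      unfold G76
      rw [hp.1]
    rw [Finset.sum_congr rfl h2]
    rw [Nat.sum_divisorsAntidiagonal
      (fun d _ => if d ≤ Y ∧ Z < m then (mu d : ℂ) * F mu (N / m) ((m : ℝ) * x) else 0)]
    split_ifs with h
    · unfold cf
      push_cast
      rw [Finset.sum_mul, Finset.sum_filter]
      refine Finset.sum_congr rfl fun d _ => ?_
      by_cases hd : d ≤ Y
      · rw [if_pos ⟨hd, h⟩, if_pos hd]
      · rw [if_neg (fun hh => hd hh.1), if_neg hd]
    · refine Finset.sum_eq_zero fun d _ => ?_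
      rw [if_neg (fun hh => h hh.2)]
  rw [Finset.sum_congr rfl h1, ← Finset.sum_filter]
  refine Finset.sum_congr ?_ fun _ _ => rfl
  ext m
  simp only [Finset.mem_filter, Finset.mem_Icc, Finset.mem_Ioc]
  omega

private lemma stepC76 (Y Z N : ℕ) (x : ℝ) (hZ : 1 ≤ Z) {d : ℕ} (hd : 1 ≤ d) :
    ‖∑ l ∈ Icc 1 (N / d), G76 Y Z N x d l‖ ≤
      if d ≤ Y then ∑ n ∈ Icc 1 (N / Z), ‖S76 Z N x d (d * n)‖ else 0 := by
  split_ifs with hdY
  · have h1 : ∑ l ∈ Icc 1 (N / d), G76 Y Z N x d l =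
        ∑ l ∈ Icc 1 (N / d), ∑ n ∈ Icc 1 (N / d / l),
          (if Z < d * l then (mu d : ℂ) * (mu n : ℂ) * e ((n : ℝ) * (((d * l : ℕ) : ℝ) * x)) else 0) := by
      refine Finset.sum_congr rfl fun l _ => ?_
      unfold G76
      by_cases h : Z < d * l
      · rw [if_pos ⟨hdY, h⟩]
        simp only [if_pos h]
        unfold F
        rw [Finset.mul_sum, Nat.div_div_eq_div_mul]
        refine Finset.sum_congr rfl fun n _ => ?_
        ring
      · rw [if_neg (fun hh => h hh.2)]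
        simp only [if_neg h]
        rw [Finset.sum_const_zero]
    rw [h1, sum_swap76]
    have h2 : ∀ n ∈ Icc 1 (N / d), ‖∑ l ∈ Icc 1 (N / d / n),
          (if Z < d * l then (mu d : ℂ) * (mu n : ℂ) * e ((n : ℝ) * (((d * l : ℕ) : ℝ) * x)) else 0)‖ ≤
        ‖S76 Z N x d (d * n)‖ := by
      intro n _
      have h3 : ∑ l ∈ Icc 1 (N / d / n),
          (if Z < d * l then (mu d : ℂ) * (mu n : ℂ) * e ((n : ℝ) * (((d * l : ℕ) : ℝ) * x)) else 0) =
          (mu d : ℂ) * (mu n : ℂ) * S76 Z N x d (d * n) := by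
        unfold S76
        rw [← Finset.sum_filter, Finset.mul_sum, Nat.div_div_eq_div_mul]
        refine Finset.sum_congr ?_ fun l _ => ?_
        · ext l
          simp only [Finset.mem_filter, Finset.mem_Icc, Finset.mem_Ioc]
          rw [Nat.div_lt_iff_lt_mul (by omega : 0 < d)]
          constructor
          · rintro ⟨⟨_, h5⟩, h6⟩
            exact ⟨by rw [mul_comm]; exact h6, h5⟩
          · rintro ⟨h5, h6⟩
            refine ⟨⟨?_, h6⟩, by rw [mul_comm]; exact h5⟩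
            rcases Nat.eq_zero_or_pos l with h0 | h0
            · rw [h0, zero_mul] at h5
              omega
            · exact h0
        · congr 2
          push_cast
          ring
      rw [h3, norm_mul, norm_mul]
      have h4 := abs_mu76 d
      have h5 := abs_mu76 n
      have h6 := norm_nonneg (S76 Z N x d (d * n))
      have h7 : ‖(mu d : ℂ)‖ * ‖(mu n : ℂ)‖ ≤ 1 := mul_le_one₀ h4 (norm_nonneg _) h5
      calc ‖(mu d : ℂ)‖ * ‖(mu n : ℂ)‖ * ‖S76 Z N x d (d * n)‖ ≤ 1 * ‖S76 Z N x d (d * n)‖ :=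
            mul_le_mul_of_nonneg_right h7 h6
        _ = _ := one_mul _
    refine (norm_sum_le _ _).trans ((Finset.sum_le_sum h2).trans ?_)
    have h8 : ∀ n ∈ Icc 1 (N / d), ‖S76 Z N x d (d * n)‖ ≠ 0 → n ≤ N / Z := by
      intro n hn h
      rw [Finset.mem_Icc] at hn
      by_contra hc
      apply h
      unfold S76
      rw [Finset.Ioc_eq_empty_of_le, Finset.sum_empty, norm_zero]
      rw [← Nat.div_div_eq_div_mul, Nat.div_div_eq_div_mul, mul_comm d n, ← Nat.div_div_eq_div_mul]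
      apply Nat.div_le_div_right
      have h9 : N / Z < n := not_le.1 hc
      rw [Nat.div_lt_iff_lt_mul (by omega : 0 < Z)] at h9
      rw [Nat.div_le_iff_le_mul_add_pred (by omega : 0 < n)]
      omega
    rw [← Finset.sum_filter_of_ne h8]
    apply Finset.sum_le_sum_of_subset_of_nonneg
    · intro n hn
      rw [Finset.mem_filter, Finset.mem_Icc] at hn
      rw [Finset.mem_Icc]
      exact ⟨hn.1.1, hn.2⟩
    · intro _ _ _
      exact norm_nonneg _
  · rw [Finset.sum_eq_zero, norm_zero]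
    intro l _
    unfold G76
    rw [if_neg (fun hh => hdY hh.1)]

/-- grouping the pairs by the product -/
private lemma group76 (Y K : ℕ) (g : ℕ → ℝ) (hg : ∀ k, 0 ≤ g k) :
    ∑ d ∈ Icc 1 Y, ∑ n ∈ Icc 1 K, g (d * n) ≤ ∑ k ∈ Icc 1 (Y * K), (k.divisors.card : ℝ) * g k := by
  rw [← Finset.sum_product' (Icc 1 Y) (Icc 1 K) (fun d n => g (d * n))]
  rw [← Finset.sum_fiberwise_of_maps_to (g := fun p : ℕ × ℕ => p.1 * p.2) (t := Icc 1 (Y * K))]
  · refine Finset.sum_le_sum fun k hk => ?_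
    rw [Finset.sum_congr rfl (g := fun _ => g k) (fun p hp => by rw [(Finset.mem_filter.1 hp).2])]
    rw [Finset.sum_const, nsmul_eq_mul]
    apply mul_le_mul_of_nonneg_right _ (hg k)
    have h1 : ((Icc 1 Y ×ˢ Icc 1 K).filter (fun p : ℕ × ℕ => p.1 * p.2 = k)).card ≤ k.divisors.card := by
      apply Finset.card_le_card_of_injOn (fun p : ℕ × ℕ => p.1)
      · intro p hp
        rw [Finset.mem_coe, Finset.mem_filter, Finset.mem_product, Finset.mem_Icc, Finset.mem_Icc] at hp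
        rw [Finset.mem_Icc] at hk
        rw [Finset.mem_coe, Nat.mem_divisors]
        exact ⟨⟨p.2, hp.2.symm⟩, by omega⟩
      · intro p hp r hr hpr
        rw [Finset.mem_coe, Finset.mem_filter, Finset.mem_product, Finset.mem_Icc, Finset.mem_Icc] at hp hr
        have h2 : p.1 = r.1 := hpr
        have h3 : p.1 * p.2 = p.1 * r.2 := by rw [hp.2, h2, hr.2]
        have h4 : p.2 = r.2 := Nat.eq_of_mul_eq_mul_left (by omega) h3
        exact Prod.ext h2 h4
    exact_mod_cast h1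
  · intro p hp
    rw [Finset.mem_product, Finset.mem_Icc, Finset.mem_Icc] at hp
    rw [Finset.mem_Icc]
    constructor
    · nlinarith
    · exact Nat.mul_le_mul hp.1.2 hp.2.2

theorem typeI (Y Z N q : ℕ) (b : ℤ) (D : ℝ) (hq : 1 ≤ q) (hb : IsCoprime b (q : ℤ)) (hY : 1 ≤ Y)
    (hZ : 1 ≤ Z) (hD : ∀ k : ℕ, 1 ≤ k → k ≤ Y * (N / Z) → (k.divisors.card : ℝ) ≤ D) (hD0 : 0 ≤ D) :
    ‖∑ m ∈ Ioc Z N, (cf Y m : ℂ) * F mu (N / m) ((m : ℝ) * ((b : ℝ) / q))‖ ≤
      D * (((N : ℝ) / q + 2 * (((Y * (N / Z) : ℕ) : ℝ) + q)) *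
        (1 + Real.log (((Y * (N / Z) : ℕ) : ℝ) + q))) := by
  obtain ⟨x, hx⟩ : ∃ x : ℝ, x = (b : ℝ) / q := ⟨_, rfl⟩
  rw [← hx]
  -- the divisor with the greatest norm
  have hdiv : ∀ k : ℕ, ∃ d0 : ℕ, ∀ d ∈ k.divisors, ‖S76 Z N x d k‖ ≤ ‖S76 Z N x d0 k‖ := by
    intro k
    rcases k.divisors.eq_empty_or_nonempty with h | h
    · exact ⟨0, fun d hd => by rw [h] at hd; exact absurd hd (Finset.notMem_empty d)⟩
    · obtain ⟨d0, _, h0⟩ := Finset.exists_max_image k.divisors (fun d => ‖S76 Z N x d k‖) h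
      exact ⟨d0, h0⟩
  choose dk hdk using hdiv
  have hA := stepA76 Y Z N x
  rw [sum_anti76] at hA
  rw [hA]
  have h1 : ‖∑ m ∈ Icc 1 N, ∑ k ∈ Icc 1 (N / m), G76 Y Z N x m k‖ ≤
      ∑ d ∈ Icc 1 Y, ∑ n ∈ Icc 1 (N / Z), ‖S76 Z N x (dk (d * n)) (d * n)‖ := by
    refine (norm_sum_le _ _).trans ?_
    have h2 : ∀ d ∈ Icc 1 N, ‖∑ k ∈ Icc 1 (N / d), G76 Y Z N x d k‖ ≤
        if d ≤ Y then ∑ n ∈ Icc 1 (N / Z), ‖S76 Z N x (dk (d * n)) (d * n)‖ else 0 := by
      intro d hd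
      rw [Finset.mem_Icc] at hd
      refine (stepC76 Y Z N x hZ hd.1).trans ?_
      split_ifs with h
      · refine Finset.sum_le_sum fun n hn => ?_
        rw [Finset.mem_Icc] at hn
        apply hdk
        rw [Nat.mem_divisors]
        exact ⟨⟨n, rfl⟩, Nat.mul_ne_zero (by omega) (by omega)⟩
      · exact le_rfl
    refine (Finset.sum_le_sum h2).trans ?_
    rw [← Finset.sum_filter]
    apply Finset.sum_le_sum_of_subset_of_nonneg
    · intro d hd
      rw [Finset.mem_filter, Finset.mem_Icc] at hd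
      rw [Finset.mem_Icc]
      exact ⟨hd.1.1, hd.2⟩
    · intro _ _ _
      exact Finset.sum_nonneg fun _ _ => norm_nonneg _
  refine h1.trans ?_
  refine (group76 Y (N / Z) (fun k => ‖S76 Z N x (dk k) k‖) fun _ => norm_nonneg _).trans ?_
  have h3 : ∑ k ∈ Icc 1 (Y * (N / Z)), (k.divisors.card : ℝ) * ‖S76 Z N x (dk k) k‖ ≤
      D * ∑ k ∈ Icc 1 (Y * (N / Z)), ‖S76 Z N x (dk k) k‖ := by
    rw [Finset.mul_sum]
    refine Finset.sum_le_sum fun k hk => ?_
    rw [Finset.mem_Icc] at hk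
    exact mul_le_mul_of_nonneg_right (hD k hk.1 hk.2) (norm_nonneg _)
  refine h3.trans (mul_le_mul_of_nonneg_left ?_ hD0)
  have h4 := Pool.Helper19.V4.type_one hq hb (Y * (N / Z)) (X := N) (Nat.cast_nonneg N)
    (fun k => Z / dk k) (fun k => N / k) (by
      intro m _ _
      have : m * (N / m) ≤ N := Nat.mul_div_le N m
      exact_mod_cast this)
  refine le_trans (le_of_eq ?_) h4
  refine Finset.sum_congr rfl fun k _ => ?_
  unfold S76
  congr 1
  refine Finset.sum_congr rfl fun l _ => ?_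
  unfold e Pool.Helper19.V4.ex
  congr 1
  rw [hx]
  push_cast
  ring

end Pool.Agent.Helper55.CM
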