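import Pool.Agent.Helper55.CM.Defs
import Pool.Agent.Helper55.CM.ID
import Pool.Agent.Helper55.CM.T1
import Pool.Agent.Helper99.MB.TypeII
import Pool.Agent.Helper7.GPC.Div
import Pool.Agent.Helper55.CM.MAJ
import Pool.Agent.Helper55.CM.FIN
import Pool.Agent.Helper55.CM.MINOR

/-!
# Assembly (helper55)
-/

set_option autoImplicit false

namespace Pool.Agent.Helper55.CM

open Finset
open Pool.Agent.Helper92.GB (e F tw npi theta)

/-- The passage from the pointwise bound in terms of the denominator to the exponent. -/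
theorem theta_aux (c a : ℝ) (hc1 : 1 / 2 ≤ c) (hc2 : c ≤ 1) (ha1 : 1 / 2 ≤ a) (ha2 : a ≤ 1)
    (hq : ∀ ε : ℝ, 0 < ε → ∃ C : ℝ, 0 ≤ C ∧
      ∀ N q : ℕ, 1 ≤ q → q ≤ N → ∀ b : ℤ, IsCoprime b (q : ℤ) → ∀ M : ℕ, M ≤ N →
        ‖F mu M ((b : ℝ) / q)‖ ≤ C * (N : ℝ) ^ ε * ((N : ℝ) ^ tau c + (N : ℝ) ^ kap c / Real.sqrt q + (N : ℝ) / q +
          (N : ℝ) ^ (kap c - 1 / 2) * Real.sqrt q + q))
    (hT : Tw a) : theta mu ≤ max (tau c) (max ((a + kap c) / 2) ((1 + 2 * a) / 3)) := by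
  have ht1 := tau_lt c hc1
  have ht0 := tau_ge c hc1
  have hk1 : kap c ≤ 1 := by
    rw [kap_eq c hc1]
    nlinarith
  have hk2 : kap c - 1 / 2 ≤ 1 / 2 := by linarith
  obtain ⟨η, hη⟩ : ∃ η : ℝ, η = max (kap c - a) (2 / 3 * (1 - a)) := ⟨_, rfl⟩
  have hη0 : 0 ≤ η := by rw [hη]; exact le_max_of_le_right (by linarith)
  have hη1 : η ≤ 1 / 2 := by
    rw [hη]
    exact max_le (by linarith) (by linarith)
  have hη2 : kap c - a ≤ η := by rw [hη]; exact le_max_left _ _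
  have hη3 : 2 / 3 * (1 - a) ≤ η := by rw [hη]; exact le_max_right _ _
  obtain ⟨σ, hσ⟩ : ∃ σ : ℝ, σ = max (tau c) (max ((a + kap c) / 2) ((1 + 2 * a) / 3)) := ⟨_, rfl⟩
  have s1 : tau c ≤ σ := by rw [hσ]; exact le_max_left _ _
  have s2 : (a + kap c) / 2 ≤ σ := by rw [hσ]; exact le_max_of_le_right (le_max_left _ _)
  have s3 : (1 + 2 * a) / 3 ≤ σ := by rw [hσ]; exact le_max_of_le_right (le_max_right _ _)
  have hfin := fin_aux σ η a (by linarith) hη0 hη1 (by linarith) ?_ (major a ha1 hT)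
  · rw [← hσ]
    refine hfin.trans (max_le le_rfl ?_)
    rw [hη]
    rcases max_cases (kap c - a) (2 / 3 * (1 - a)) with ⟨h, _⟩ | ⟨h, _⟩
    · rw [h]; linarith
    · rw [h]; linarith
  · intro ε hε
    obtain ⟨C, hC, h⟩ := hq ε hε
    refine ⟨5 * C, by positivity, ?_⟩
    intro N q hN hq1 b hb hq2 hq3 M hM
    have hN1 : (1 : ℝ) ≤ N := by exact_mod_cast hN
    have hN0 : (0 : ℝ) < N := by linarith
    have hq1' : (1 : ℝ) ≤ q := by exact_mod_cast hq1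
    have hq0 : (0 : ℝ) < q := by linarith
    have hqN : q ≤ N := by
      have : (q : ℝ) ≤ N := by
        calc (q : ℝ) ≤ (N : ℝ) ^ (1 - η) := hq3
          _ ≤ (N : ℝ) ^ (1 : ℝ) := Real.rpow_le_rpow_of_exponent_le hN1 (by linarith)
          _ = N := Real.rpow_one _
      exact_mod_cast this
    have hsq1 : (N : ℝ) ^ (η / 2) ≤ Real.sqrt q := by
      apply Real.le_sqrt_of_sq_le
      rw [← Real.rpow_natCast, ← Real.rpow_mul hN0.le]
      calc (N : ℝ) ^ (η / 2 * ((2 : ℕ) : ℝ)) = (N : ℝ) ^ η := by congr 1; push_cast; ring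
        _ ≤ q := hq2
    have hsq2 : Real.sqrt q ≤ (N : ℝ) ^ ((1 - η) / 2) := by
      rw [Real.sqrt_le_left (by positivity), ← Real.rpow_natCast, ← Real.rpow_mul hN0.le]
      calc (q : ℝ) ≤ (N : ℝ) ^ (1 - η) := hq3
        _ = (N : ℝ) ^ ((1 - η) / 2 * ((2 : ℕ) : ℝ)) := by congr 1; push_cast; ring
    have t1 : (N : ℝ) ^ tau c ≤ (N : ℝ) ^ σ := Real.rpow_le_rpow_of_exponent_le hN1 s1
    have t2 : (N : ℝ) ^ kap c / Real.sqrt q ≤ (N : ℝ) ^ σ := by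
      rw [div_le_iff₀ (by positivity)]
      calc (N : ℝ) ^ kap c ≤ (N : ℝ) ^ (σ + η / 2) :=
            Real.rpow_le_rpow_of_exponent_le hN1 (by linarith)
        _ = (N : ℝ) ^ σ * (N : ℝ) ^ (η / 2) := Real.rpow_add hN0 _ _
        _ ≤ (N : ℝ) ^ σ * Real.sqrt q := by gcongr
    have t3 : (N : ℝ) / q ≤ (N : ℝ) ^ σ := by
      rw [div_le_iff₀ hq0]
      calc (N : ℝ) = (N : ℝ) ^ (1 : ℝ) := (Real.rpow_one _).symm
        _ ≤ (N : ℝ) ^ (σ + η) := Real.rpow_le_rpow_of_exponent_le hN1 (by linarith)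
        _ = (N : ℝ) ^ σ * (N : ℝ) ^ η := Real.rpow_add hN0 _ _
        _ ≤ (N : ℝ) ^ σ * q := by gcongr
    have t4 : (N : ℝ) ^ (kap c - 1 / 2) * Real.sqrt q ≤ (N : ℝ) ^ σ := by
      calc (N : ℝ) ^ (kap c - 1 / 2) * Real.sqrt q ≤ (N : ℝ) ^ (kap c - 1 / 2) * (N : ℝ) ^ ((1 - η) / 2) := by gcongr
        _ = (N : ℝ) ^ (kap c - 1 / 2 + (1 - η) / 2) := (Real.rpow_add hN0 _ _).symm
        _ ≤ (N : ℝ) ^ σ := Real.rpow_le_rpow_of_exponent_le hN1 (by linarith)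
    have t5 : (q : ℝ) ≤ (N : ℝ) ^ σ :=
      hq3.trans (Real.rpow_le_rpow_of_exponent_le hN1 (by linarith))
    calc ‖F mu M ((b : ℝ) / q)‖ ≤ C * (N : ℝ) ^ ε * ((N : ℝ) ^ tau c + (N : ℝ) ^ kap c / Real.sqrt q + (N : ℝ) / q +
          (N : ℝ) ^ (kap c - 1 / 2) * Real.sqrt q + q) := h N q hq1 hqN b hb M hM
      _ ≤ C * (N : ℝ) ^ ε * (5 * (N : ℝ) ^ σ) := by
          gcongr
          linarith
      _ = 5 * C * (N : ℝ) ^ (σ + ε) := by rw [Real.rpow_add hN0]; ring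

/-- The type I bound from block T1. -/
theorem typeIBd : TypeIBd := by
  intro ε hε
  obtain ⟨C, hC1, hC⟩ := Pool.Agent.Helper7.GPC.card_divisors_le (ε := ε / 4) (by positivity)
  have hC0 : 0 ≤ C := by linarith
  refine ⟨C * (2 * (3 + 2 / ε)), by positivity, ?_⟩
  intro N Y Z q b hY hYZ hZN hq hqN hb
  have hZ : 1 ≤ Z := hY.trans hYZ
  have hN : 1 ≤ N := hq.trans hqN
  have hN1 : (1 : ℝ) ≤ N := by exact_mod_cast hN
  have hN0 : (0 : ℝ) < N := by linarith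
  have hq1 : (1 : ℝ) ≤ q := by exact_mod_cast hq
  have hZ0 : (0 : ℝ) < Z := by exact_mod_cast hZ
  obtain ⟨K, hK⟩ : ∃ K : ℕ, K = Y * (N / Z) := ⟨_, rfl⟩
  have hKle : (K : ℝ) ≤ (Y : ℝ) * N / Z := by
    rw [hK]
    push_cast
    have h1 : ((N / Z : ℕ) : ℝ) ≤ (N : ℝ) / Z := Nat.cast_div_le
    calc (Y : ℝ) * ((N / Z : ℕ) : ℝ) ≤ (Y : ℝ) * ((N : ℝ) / Z) := by gcongr
      _ = (Y : ℝ) * N / Z := by ring
  have hKN : K ≤ N := by
    rw [hK]
    calc Y * (N / Z) ≤ Z * (N / Z) := Nat.mul_le_mul_right _ hYZ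
      _ ≤ N := Nat.mul_div_le N Z
  have hKN' : (K : ℝ) ≤ N := by exact_mod_cast hKN
  have hqN' : (q : ℝ) ≤ N := by exact_mod_cast hqN
  have h1 := typeI Y Z N q b (C * (N : ℝ) ^ (ε / 4)) hq hb hY hZ (by
    intro k hk1 hk2
    refine (hC k (by omega)).trans ?_
    have : (k : ℝ) ≤ N := by
      have h2 : k ≤ N := hk2.trans (by rw [← hK]; exact hKN)
      exact_mod_cast h2
    gcongr) (by positivity)
  rw [← hK] at h1
  refine h1.trans ?_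
  have hlog : 1 + Real.log ((K : ℝ) + q) ≤ (3 + 2 / ε) * (N : ℝ) ^ (ε / 2) := by
    have h2 : Real.log ((K : ℝ) + q) ≤ Real.log (2 * N) := by
      apply Real.log_le_log (by positivity)
      linarith
    have h3 : Real.log (2 * (N : ℝ)) = Real.log 2 + Real.log N := Real.log_mul (by norm_num) hN0.ne'
    have h4 : Real.log N ≤ (N : ℝ) ^ (ε / 2) / (ε / 2) := Real.log_le_rpow_div hN0.le (by positivity)
    have h5 : (1 : ℝ) ≤ (N : ℝ) ^ (ε / 2) := Real.one_le_rpow hN1 (by positivity)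
    have h6 : Real.log 2 ≤ 1 := by
      have := Real.log_two_lt_d9
      linarith
    have h7 : (N : ℝ) ^ (ε / 2) / (ε / 2) = 2 / ε * (N : ℝ) ^ (ε / 2) := by
      field_simp
    rw [h7] at h4
    nlinarith
  have hbr : (N : ℝ) / q + 2 * ((K : ℝ) + q) ≤ 2 * ((N : ℝ) / q + (Y : ℝ) * N / Z + q) := by
    have : 0 ≤ (N : ℝ) / q := by positivity
    linarith
  have hlog0 : 0 ≤ 1 + Real.log ((K : ℝ) + q) := by
    have : 0 ≤ Real.log ((K : ℝ) + q) := Real.log_nonneg (by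
      have : (0 : ℝ) ≤ K := Nat.cast_nonneg K
      linarith)
    linarith
  calc C * (N : ℝ) ^ (ε / 4) * (((N : ℝ) / q + 2 * ((K : ℝ) + q)) * (1 + Real.log ((K : ℝ) + q)))
      ≤ C * (N : ℝ) ^ (ε / 4) * ((2 * ((N : ℝ) / q + (Y : ℝ) * N / Z + q)) * ((3 + 2 / ε) * (N : ℝ) ^ (ε / 2))) := by
        gcongr
    _ = C * (2 * (3 + 2 / ε)) * ((N : ℝ) ^ (ε / 4) * (N : ℝ) ^ (ε / 2)) * ((N : ℝ) / q + (Y : ℝ) * N / Z + q) := by
        ring
    _ ≤ C * (2 * (3 + 2 / ε)) * (N : ℝ) ^ ε * ((N : ℝ) / q + (Y : ℝ) * N / Z + q) := by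
        have h8 : (N : ℝ) ^ (ε / 4) * (N : ℝ) ^ (ε / 2) ≤ (N : ℝ) ^ ε := by
          rw [← Real.rpow_add hN0]
          exact Real.rpow_le_rpow_of_exponent_le hN1 (by linarith)
        gcongr

lemma G99_eq (M : ℕ) (t : ℝ) : Pool.Agent.Helper99.MB.G99 mu M t = F mu M t := by
  unfold Pool.Agent.Helper99.MB.G99 Pool.Agent.Helper92.GB.F Pool.Helper19.V4.ex Pool.Agent.Helper92.GB.e
  refine Finset.sum_congr rfl fun n _ => ?_
  congr 2
  push_cast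
  ring

/-- The type II bound from helper99's theorem. -/
theorem typeIIBd (c : ℝ) (hc1 : 1 / 2 ≤ c) (hc2 : c ≤ 1) (hC : Corr c) : TypeIIBd c := by
  intro ε hε
  have hg : ∀ n, |mu n| ≤ 1 := fun n => by
    unfold mu
    exact ArithmeticFunction.abs_moebius_le_one
  obtain ⟨C, hC0, h⟩ := Pool.Agent.Helper99.MB.tII99 (g := mu) hg (by linarith) hc2 (by
    intro ε hε
    obtain ⟨C, h⟩ := hC ε hε
    exact ⟨C, fun N M s hN hM hs1 hs2 => h M N hM hN s hs1 hs2⟩) ε hε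
  refine ⟨C, hC0, fun N Y Z hY hYZ hZN a b hb hbN hab al hal => ?_⟩
  have h1 := h N Y Z hY hYZ hZN a b hb hbN hab al hal
  simp only [G99_eq] at h1
  exact h1

/-- The pointwise bound in terms of the denominator, from the two point correlations alone. -/
theorem qform (c : ℝ) (hc1 : 1 / 2 ≤ c) (hc2 : c ≤ 1) (hC : Corr c) (ε : ℝ) (hε : 0 < ε) : ∃ C : ℝ, 0 ≤ C ∧
    ∀ N q : ℕ, 1 ≤ q → q ≤ N → ∀ b : ℤ, IsCoprime b (q : ℤ) → ∀ M : ℕ, M ≤ N →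
      ‖F mu M ((b : ℝ) / q)‖ ≤ C * (N : ℝ) ^ ε * ((N : ℝ) ^ tau c + (N : ℝ) ^ kap c / Real.sqrt q + (N : ℝ) / q +
        (N : ℝ) ^ (kap c - 1 / 2) * Real.sqrt q + q) :=
  qform_aux c hc1 hc2 (typeIIBd c hc1 hc2 hC) typeIBd (fun Y N hY x => id_F Y N hY x) ε hε

/-- The growth exponent of the Moebius function from twists and two point correlations. -/
theorem theta_mu (c a : ℝ) (hc1 : 1 / 2 ≤ c) (hc2 : c ≤ 1) (ha1 : 1 / 2 ≤ a) (ha2 : a ≤ 1) (hC : Corr c)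
    (hT : Tw a) : theta mu ≤ max (tau c) (max ((a + kap c) / 2) ((1 + 2 * a) / 3)) :=
  theta_aux c a hc1 hc2 ha1 ha2 (fun ε hε => qform c hc1 hc2 hC ε hε) hT

end Pool.Agent.Helper55.CM
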