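import Pool.Agent.Helper92.GB.Defs
import Pool.Agent.Helper92.GB.Theta

/-!
# Two point correlations, twists and the identity of Vaughan together: definitions (MP_b6b996_nt)
The exponential sum with the Moebius function goes below the exponent 3/4 of the classes.
-/

set_option autoImplicit false

namespace Pool.Agent.Helper55.CM

open Finset
open Pool.Agent.Helper92.GB (e F tw npi theta)

/-- The Moebius function on `ℕ`. -/
def mu (n : ℕ) : ℤ := ArithmeticFunction.moebius n

/-- The coefficients `∑_{d ∣ m, d ≤ Y} μ(d)`. -/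
def cf (Y m : ℕ) : ℤ := ∑ d ∈ m.divisors.filter (fun d => d ≤ Y), mu d

/-- The two point correlations of the Moebius function are at most `N ^ (c + ε)`, uniformly in the length
`M ≤ N` and in the shift `1 ≤ h ≤ N`. -/
def Corr (c : ℝ) : Prop :=
  ∀ ε : ℝ, 0 < ε → ∃ C : ℝ, ∀ M N : ℕ, M ≤ N → 1 ≤ N → ∀ h : ℕ, 1 ≤ h → h ≤ N →
    |((∑ n ∈ Icc 1 M, mu n * mu (n + h) : ℤ) : ℝ)| ≤ C * (N : ℝ) ^ (c + ε)

/-- The sums of the Moebius function twisted by `χ(n) n^{it}` are at most `N ^ (a + ε)`. -/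
def Tw (a : ℝ) : Prop :=
  ∀ ε : ℝ, 0 < ε → ∃ C : ℝ, ∀ (q : ℕ) (χ : DirichletCharacter ℂ q) (t : ℝ) (N : ℕ),
    1 ≤ q → 1 ≤ N → ‖tw mu χ t N‖ ≤ C * ((q : ℝ) * (1 + |t|) * N) ^ ε * (N : ℝ) ^ a

/-- The exponent which the correlations of exponent `c` give. -/
noncomputable def tau (c : ℝ) : ℝ := (1 + 3 * c) / (2 + 3 * c)

/-- The exponent in the second term of the pointwise bound. -/
noncomputable def kap (c : ℝ) : ℝ := (1 + 4 * c) / (2 + 3 * c)

/-- The second moment of a block of length `L` with inner sums of length `M`, correlations at most `R`. -/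
noncomputable def blk (R : ℝ) (L M q : ℕ) : ℝ :=
  (L : ℝ) * M + 2 * R * ((2 * (L : ℝ) * M / q + 2 * ((M : ℝ) + q)) * (1 + Real.log ((M : ℝ) + q)))

end Pool.Agent.Helper55.CM
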