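import Pool.Agent.Helper55.CM.Defs
import Pool.Agent.Helper55.CM.ID

/-!
# Block MS (helper99)
Sums of `μ(n)` and `μ(n)/n` over `n` coprime to `r`.
Proof. `M(X)`, `S(X)` the sums of `μ(n)` and `μ(n)/n` over `n ≤ X`, `(n, r) = 1`. First part: `Tw a` with the principal character modulo `r`, `t = 0`. Second part for `a < 1` (`a = 1` is trivial:
`|S(X)| ≤ 1 + log X`): if `|M(X)| ≤ K X ^ σ`, `σ < 1`, then `U(n) = S(n) - M(n)/n` satisfies `|U(n + 1) - U(n)| ≤ K n ^ (σ - 1) / (n + 1) ≤ K/(1 - σ) (n ^ (σ - 1) - (n + 1) ^ (σ - 1))`,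
so `|S(B) - S(A)| ≤ K' A ^ (σ - 1)` for `B ≥ A`. With `H(Y) = ∑_{m ≤ Y, (m, r) = 1} 1/m` the identity `∑_{m ≤ X, (m, r) = 1} (1/m) S(X / m) = 1` gives
`|S(A)| H(X / A) ≤ K' A ^ (σ - 1) H(X / A) + 1 + A²` for all `X`, and `H` is unbounded.
-/

set_option autoImplicit false

namespace Pool.Agent.Helper55.CM

open Finset
open Pool.Agent.Helper92.GB (e F tw npi theta)

/-- the indicator of the integers coprime to `r` -/
private def ind99 (r n : ℕ) : ℝ := if n.Coprime r then 1 else 0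

private lemma ind99_nonneg (r n : ℕ) : 0 ≤ ind99 r n := by
  unfold ind99
  split_ifs
  · exact zero_le_one
  · exact le_rfl

private lemma ind99_le (r n : ℕ) : ind99 r n ≤ 1 := by
  unfold ind99
  split_ifs
  · exact le_rfl
  · exact zero_le_one

/-- the Moebius function on the integers coprime to `r` -/
private def g99 (r n : ℕ) : ℝ := if n.Coprime r then (mu n : ℝ) else 0

private lemma mu_abs99 (n : ℕ) : |(mu n : ℝ)| ≤ 1 := by
  have h : |mu n| ≤ 1 := ArithmeticFunction.abs_moebius_le_one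
  exact_mod_cast h

private lemma g99_abs (r n : ℕ) : |g99 r n| ≤ 1 := by
  unfold g99
  split_ifs
  · exact mu_abs99 n
  · simp

private def M99 (r X : ℕ) : ℝ := ∑ n ∈ Icc 1 X, g99 r n

private noncomputable def S99 (r X : ℕ) : ℝ := ∑ n ∈ Icc 1 X, g99 r n / n

private noncomputable def H99 (r X : ℕ) : ℝ := ∑ n ∈ Icc 1 X, ind99 r n / n

private lemma H99_nonneg (r X : ℕ) : 0 ≤ H99 r X :=
  Finset.sum_nonneg fun n _ => div_nonneg (ind99_nonneg r n) (Nat.cast_nonneg n)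

private lemma S99_abs (r X : ℕ) : |S99 r X| ≤ X := by
  unfold S99
  refine (Finset.abs_sum_le_sum_abs _ _).trans ?_
  have h : ∀ n ∈ Icc 1 X, |g99 r n / n| ≤ (1 : ℝ) := by
    intro n hn
    rw [mem_Icc] at hn
    have hn1 : (1 : ℝ) ≤ n := by exact_mod_cast hn.1
    rw [abs_div, abs_of_pos (by linarith : (0 : ℝ) < n), div_le_one (by linarith)]
    exact (g99_abs r n).trans hn1
  refine (Finset.sum_le_sum h).trans ?_
  simp

/-- the identity -/
private lemma ident99 (r X : ℕ) (hX : 1 ≤ X) :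
    ∑ m ∈ Icc 1 X, ind99 r m / m * S99 r (X / m) = 1 := by
  have h1 : ∑ m ∈ Icc 1 X, ind99 r m / m * S99 r (X / m) =
      ∑ m ∈ Icc 1 X, ∑ k ∈ Icc 1 (X / m), ind99 r m / m * (g99 r k / k) := by
    refine Finset.sum_congr rfl fun m _ => ?_
    unfold S99
    rw [Finset.mul_sum]
  rw [h1, ← sum_anti76 X (fun m k => ind99 r m / m * (g99 r k / k))]
  have h2 : ∀ n ∈ Icc 1 X, ∑ p ∈ n.divisorsAntidiagonal, ind99 r p.1 / (p.1 : ℝ) * (g99 r p.2 / (p.2 : ℝ)) =
      if n = 1 then 1 else 0 := by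
    intro n hn
    rw [mem_Icc] at hn
    have h3 : ∀ p ∈ n.divisorsAntidiagonal, ind99 r p.1 / (p.1 : ℝ) * (g99 r p.2 / (p.2 : ℝ)) =
        ind99 r n / n * (mu p.2 : ℝ) := by
      intro p hp
      rw [Nat.mem_divisorsAntidiagonal] at hp
      have h4 : ind99 r p.1 * g99 r p.2 = ind99 r n * (mu p.2 : ℝ) := by
        unfold ind99 g99
        rw [← hp.1]
        by_cases c1 : p.1.Coprime r
        · by_cases c2 : p.2.Coprime r
          · rw [if_pos c1, if_pos c2, if_pos (Nat.Coprime.mul_left c1 c2)]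
          · rw [if_pos c1, if_neg c2, if_neg (fun h => c2 (Nat.Coprime.coprime_mul_left h))]
            simp
        · rw [if_neg c1, if_neg (fun h => c1 (Nat.Coprime.coprime_mul_right h))]
          simp
      rw [div_mul_div_comm, h4, div_mul_eq_mul_div, ← hp.1]
      push_cast
      rfl
    rw [Finset.sum_congr rfl h3, ← Finset.mul_sum]
    have h5 : (∑ p ∈ n.divisorsAntidiagonal, mu p.2 : ℤ) = if n = 1 then 1 else 0 := by
      have h6 : ((ArithmeticFunction.zeta : ArithmeticFunction ℤ) * ArithmeticFunction.moebius) n =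
          (1 : ArithmeticFunction ℤ) n := by
        rw [ArithmeticFunction.coe_zeta_mul_moebius]
      rw [ArithmeticFunction.mul_apply, ArithmeticFunction.one_apply] at h6
      rw [← h6]
      refine Finset.sum_congr rfl fun p hp => ?_
      rw [Nat.mem_divisorsAntidiagonal] at hp
      have h7 : p.1 ≠ 0 := by
        intro h0
        rw [h0, zero_mul] at hp
        exact hp.2 hp.1.symm
      rw [ArithmeticFunction.natCoe_apply, ArithmeticFunction.zeta_apply_ne h7]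
      unfold mu
      simp
    have h8 : (∑ p ∈ n.divisorsAntidiagonal, (mu p.2 : ℝ)) = if n = 1 then 1 else 0 := by
      have h9 : (((∑ p ∈ n.divisorsAntidiagonal, mu p.2 : ℤ)) : ℝ) = ((if n = 1 then 1 else 0 : ℤ) : ℝ) := by
        rw [h5]
      push_cast at h9
      exact h9
    rw [h8]
    by_cases h : n = 1
    · subst h
      unfold ind99
      simp
    · rw [if_neg h, mul_zero]
  rw [Finset.sum_congr rfl h2, Finset.sum_ite_eq', if_pos (mem_Icc.2 ⟨le_rfl, hX⟩)]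

/-- the harmonic sum over the integers coprime to `r` is unbounded -/
private lemma Hbig99 (r : ℕ) (hr : 1 ≤ r) (B : ℝ) : ∃ Y : ℕ, 1 ≤ Y ∧ B < H99 r Y := by
  obtain ⟨J, hJ⟩ := (Real.tendsto_sum_range_one_div_nat_succ_atTop.eventually_gt_atTop (r * B)).exists
  have hr0 : (0 : ℝ) < r := by exact_mod_cast hr
  refine ⟨1 + J * r, by omega, ?_⟩
  have h1 : ∑ i ∈ range J, (1 : ℝ) / ((1 + i * r : ℕ) : ℝ) ≤ H99 r (1 + J * r) := by
    have hinj : Set.InjOn (fun i => 1 + i * r) (range J : Finset ℕ) := by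
      intro i _ j _ hij
      have h2 : 1 + i * r = 1 + j * r := hij
      have h3 : i * r = j * r := by omega
      exact Nat.eq_of_mul_eq_mul_right hr h3
    have h2 : ∑ i ∈ range J, (1 : ℝ) / ((1 + i * r : ℕ) : ℝ) =
        ∑ m ∈ (range J).image (fun i => 1 + i * r), ind99 r m / m := by
      rw [Finset.sum_image hinj]
      refine Finset.sum_congr rfl fun i _ => ?_
      unfold ind99
      rw [if_pos]
      rw [Nat.coprime_add_mul_right_left]
      exact Nat.coprime_one_left r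
    rw [h2]
    unfold H99
    refine Finset.sum_le_sum_of_subset_of_nonneg ?_ fun n _ _ => div_nonneg (ind99_nonneg r n) (Nat.cast_nonneg n)
    intro m hm
    rw [mem_image] at hm
    obtain ⟨i, hi, rfl⟩ := hm
    rw [mem_range] at hi
    rw [mem_Icc]
    refine ⟨by omega, ?_⟩
    have : i * r ≤ J * r := Nat.mul_le_mul_right r hi.le
    omega
  have h2 : ∑ i ∈ range J, (1 : ℝ) / r * (1 / ((i : ℝ) + 1)) ≤ ∑ i ∈ range J, (1 : ℝ) / ((1 + i * r : ℕ) : ℝ) := by
    refine Finset.sum_le_sum fun i _ => ?_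
    rw [div_mul_div_comm, one_mul]
    have h3 : ((1 + i * r : ℕ) : ℝ) ≤ r * ((i : ℝ) + 1) := by
      push_cast
      have : (1 : ℝ) ≤ r := by exact_mod_cast hr
      linarith
    have h4 : (0 : ℝ) < ((1 + i * r : ℕ) : ℝ) := by
      push_cast
      positivity
    exact one_div_le_one_div_of_le h4 h3
  rw [← Finset.mul_sum] at h2
  have h3 : B < (1 : ℝ) / r * ∑ i ∈ range J, 1 / ((i : ℝ) + 1) := by
    rw [one_div_mul_eq_div, lt_div_iff₀ hr0, mul_comm]
    exact hJ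
  linarith

/-- the decrement of `n ^ (σ - 1)` -/
private lemma bern99 {σ : ℝ} (h0 : 0 ≤ σ) (h1 : σ < 1) {n : ℕ} (hn : 1 ≤ n) :
    (1 - σ) * ((n : ℝ) ^ σ / (n * (n + 1))) ≤ (n : ℝ) ^ (σ - 1) - ((n + 1 : ℕ) : ℝ) ^ (σ - 1) := by
  have hn0 : (0 : ℝ) < n := by exact_mod_cast hn
  have e1 : ((n + 1 : ℕ) : ℝ) ^ (σ - 1) = (n : ℝ) ^ (σ - 1) * (1 + -(1 / ((n : ℝ) + 1))) ^ (1 - σ) := by
    have h2 : 1 + -(1 / ((n : ℝ) + 1)) = n / (n + 1) := by
      field_simp
      ring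
    rw [h2, Real.div_rpow hn0.le (by positivity)]
    have h3 : (n : ℝ) ^ (σ - 1) * ((n : ℝ) ^ (1 - σ) / ((n : ℝ) + 1) ^ (1 - σ)) =
        ((n : ℝ) ^ (σ - 1) * (n : ℝ) ^ (1 - σ)) / ((n : ℝ) + 1) ^ (1 - σ) := by ring
    rw [h3, ← Real.rpow_add hn0]
    have h4 : σ - 1 + (1 - σ) = 0 := by ring
    rw [h4, Real.rpow_zero]
    have h5 : σ - 1 = -(1 - σ) := by ring
    rw [h5, Real.rpow_neg (by positivity)]
    push_cast
    rw [one_div]
  have e2 := rpow_one_add_le_one_add_mul_self (s := -(1 / ((n : ℝ) + 1))) (by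
    have : 1 / ((n : ℝ) + 1) ≤ 1 := by
      rw [div_le_one (by positivity)]
      linarith
    linarith) (p := 1 - σ) (by linarith) (by linarith)
  have e3 : (n : ℝ) ^ σ / (n * (n + 1)) = (n : ℝ) ^ (σ - 1) * (1 / ((n : ℝ) + 1)) := by
    rw [Real.rpow_sub hn0, Real.rpow_one]
    field_simp
  rw [e1, e3]
  have e4 : (0 : ℝ) ≤ (n : ℝ) ^ (σ - 1) := Real.rpow_nonneg hn0.le _
  have e5 := mul_le_mul_of_nonneg_left e2 e4
  linarith

private lemma tele99 {σ K : ℝ} (h0 : 0 ≤ σ) (h1 : σ < 1) (hK : 0 ≤ K) (r : ℕ)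
    (hM : ∀ X : ℕ, 1 ≤ X → |M99 r X| ≤ K * (X : ℝ) ^ σ) (A : ℕ) (hA : 1 ≤ A) (B : ℕ) (hAB : A ≤ B) :
    |(S99 r B - M99 r B / B) - (S99 r A - M99 r A / A)| ≤
      K / (1 - σ) * ((A : ℝ) ^ (σ - 1) - (B : ℝ) ^ (σ - 1)) := by
  have h1σ : 0 < 1 - σ := by linarith
  induction B, hAB using Nat.le_induction with
  | base => simp
  | succ n hn ih =>
    have hn1 : 1 ≤ n := hA.trans hn
    have hn0 : (0 : ℝ) < n := by exact_mod_cast hn1
    have e1 : S99 r (n + 1) = S99 r n + g99 r (n + 1) / ((n + 1 : ℕ) : ℝ) := by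
      unfold S99
      rw [Finset.sum_Icc_succ_top (by omega)]
    have e2 : M99 r (n + 1) = M99 r n + g99 r (n + 1) := by
      unfold M99
      rw [Finset.sum_Icc_succ_top (by omega)]
    have e3 : (S99 r (n + 1) - M99 r (n + 1) / ((n + 1 : ℕ) : ℝ)) - (S99 r A - M99 r A / A) =
        ((S99 r n - M99 r n / n) - (S99 r A - M99 r A / A)) + M99 r n / (n * (n + 1)) := by
      rw [e1, e2]
      push_cast
      field_simp
      ring
    rw [e3]
    refine (abs_add_le _ _).trans ?_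
    have e4 : |M99 r n / (n * (n + 1))| ≤ K / (1 - σ) * ((n : ℝ) ^ (σ - 1) - ((n + 1 : ℕ) : ℝ) ^ (σ - 1)) := by
      have e5 := bern99 h0 h1 hn1
      rw [abs_div, abs_of_pos (by positivity : (0 : ℝ) < n * (n + 1))]
      calc |M99 r n| / (n * (n + 1)) ≤ K * (n : ℝ) ^ σ / (n * (n + 1)) :=
            div_le_div_of_nonneg_right (hM n hn1) (by positivity)
        _ = K / (1 - σ) * ((1 - σ) * ((n : ℝ) ^ σ / (n * (n + 1)))) := by
            field_simp
        _ ≤ _ := mul_le_mul_of_nonneg_left e5 (by positivity)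
    linarith

private lemma diff99 {σ K : ℝ} (h0 : 0 ≤ σ) (h1 : σ < 1) (hK : 0 ≤ K) (r : ℕ)
    (hM : ∀ X : ℕ, 1 ≤ X → |M99 r X| ≤ K * (X : ℝ) ^ σ) (A : ℕ) (hA : 1 ≤ A) (B : ℕ) (hAB : A ≤ B) :
    |S99 r A - S99 r B| ≤ (K / (1 - σ) + 2 * K) * (A : ℝ) ^ (σ - 1) := by
  have h1σ : 0 < 1 - σ := by linarith
  have hA0 : (0 : ℝ) < A := by exact_mod_cast hA
  have hB0 : (0 : ℝ) < B := by exact_mod_cast hA.trans hAB
  have t1 := tele99 h0 h1 hK r hM A hA B hAB
  have t2 : ∀ n : ℕ, 1 ≤ n → |M99 r n / n| ≤ K * (n : ℝ) ^ (σ - 1) := by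
    intro n hn
    have hn0 : (0 : ℝ) < n := by exact_mod_cast hn
    rw [abs_div, abs_of_pos hn0, div_le_iff₀ hn0, mul_assoc]
    have : (n : ℝ) ^ (σ - 1) * n = (n : ℝ) ^ σ := by
      rw [Real.rpow_sub hn0, Real.rpow_one, div_mul_cancel₀ _ hn0.ne']
    rw [this]
    exact hM n hn
  have t3 := t2 A hA
  have t4 := t2 B (hA.trans hAB)
  have t5 : (B : ℝ) ^ (σ - 1) ≤ (A : ℝ) ^ (σ - 1) :=
    Real.rpow_le_rpow_of_nonpos hA0 (by exact_mod_cast hAB) (by linarith)
  have t6 : 0 ≤ (B : ℝ) ^ (σ - 1) := Real.rpow_nonneg hB0.le _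
  have e : S99 r A - S99 r B = -((S99 r B - M99 r B / B) - (S99 r A - M99 r A / A)) +
      (M99 r A / A - M99 r B / B) := by ring
  rw [e]
  refine (abs_add_le _ _).trans ?_
  rw [abs_neg]
  have t7 : |M99 r A / A - M99 r B / B| ≤ |M99 r A / A| + |M99 r B / B| := abs_sub _ _
  have t8 : 0 ≤ K / (1 - σ) := by positivity
  have t9 := mul_nonneg t8 t6
  have t10 := mul_le_mul_of_nonneg_left t5 hK
  nlinarith

private lemma small99 {σ K : ℝ} (h0 : 0 ≤ σ) (h1 : σ < 1) (hK : 0 ≤ K) (r : ℕ) (hr : 1 ≤ r)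
    (hM : ∀ X : ℕ, 1 ≤ X → |M99 r X| ≤ K * (X : ℝ) ^ σ) (A : ℕ) (hA : 1 ≤ A) :
    |S99 r A| ≤ (K / (1 - σ) + 2 * K) * (A : ℝ) ^ (σ - 1) := by
  obtain ⟨D, hD⟩ : ∃ D : ℝ, D = (K / (1 - σ) + 2 * K) * (A : ℝ) ^ (σ - 1) := ⟨_, rfl⟩
  rw [← hD]
  have hA0 : (0 : ℝ) < A := by exact_mod_cast hA
  by_contra hcon
  rw [not_le] at hcon
  have hpos : 0 < |S99 r A| - D := by linarith
  obtain ⟨Y, hY, hH⟩ := Hbig99 r hr ((1 + (A : ℝ) ^ 2) / (|S99 r A| - D))
  rw [div_lt_iff₀ hpos] at hH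
  have hX : 1 ≤ A * Y := Nat.mul_pos hA hY
  have hdiv : A * Y / A = Y := Nat.mul_div_cancel_left Y hA
  have id1 := ident99 r (A * Y) hX
  have hsplit : Icc 1 (A * Y) = Icc 1 Y ∪ Ioc Y (A * Y) := by
    ext m
    rw [mem_union, mem_Icc, mem_Icc, mem_Ioc]
    have : Y ≤ A * Y := Nat.le_mul_of_pos_left Y hA
    omega
  have hdisj : Disjoint (Icc 1 Y) (Ioc Y (A * Y)) := by
    rw [Finset.disjoint_left]
    intro m hm hm'
    rw [mem_Icc] at hm
    rw [mem_Ioc] at hm'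
    omega
  rw [hsplit, Finset.sum_union hdisj] at id1
  have p1 : |∑ m ∈ Icc 1 Y, ind99 r m / m * (S99 r A - S99 r (A * Y / m))| ≤ D * H99 r Y := by
    refine (Finset.abs_sum_le_sum_abs _ _).trans ?_
    unfold H99
    rw [Finset.mul_sum]
    refine Finset.sum_le_sum fun m hm => ?_
    rw [mem_Icc] at hm
    have q0 : 0 ≤ ind99 r m / m := div_nonneg (ind99_nonneg r m) (Nat.cast_nonneg m)
    have q1 : A ≤ A * Y / m := by
      rw [Nat.le_div_iff_mul_le hm.1]
      exact Nat.mul_le_mul_left A hm.2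
    have q2 := diff99 h0 h1 hK r hM A hA (A * Y / m) q1
    rw [← hD] at q2
    rw [abs_mul, abs_of_nonneg q0, mul_comm D]
    exact mul_le_mul_of_nonneg_left q2 q0
  have p2 : |∑ m ∈ Ioc Y (A * Y), ind99 r m / m * S99 r (A * Y / m)| ≤ (A : ℝ) ^ 2 := by
    refine (Finset.abs_sum_le_sum_abs _ _).trans ?_
    have hY0 : (0 : ℝ) < Y := by exact_mod_cast hY
    have q : ∀ m ∈ Ioc Y (A * Y), |ind99 r m / m * S99 r (A * Y / m)| ≤ 1 / Y * A := by
      intro m hm
      rw [mem_Ioc] at hm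
      have hm0 : (0 : ℝ) < m := by exact_mod_cast (by omega : 0 < m)
      rw [abs_mul, abs_of_nonneg (div_nonneg (ind99_nonneg r m) (Nat.cast_nonneg m))]
      have q1 : ind99 r m / m ≤ 1 / Y := by
        refine div_le_div₀ zero_le_one (ind99_le r m) hY0 ?_
        exact_mod_cast hm.1.le
      have q2 : |S99 r (A * Y / m)| ≤ A := by
        refine (S99_abs r _).trans ?_
        have q3 : A * Y / m ≤ A := by
          have : A * Y / m ≤ A * Y / Y := Nat.div_le_div_left hm.1.le hY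
          rwa [Nat.mul_div_cancel A hY] at this
        exact_mod_cast q3
      exact mul_le_mul q1 q2 (abs_nonneg _) (by positivity)
    refine (Finset.sum_le_sum q).trans ?_
    rw [Finset.sum_const, nsmul_eq_mul, Nat.card_Ioc]
    have q4 : ((A * Y - Y : ℕ) : ℝ) ≤ A * Y := by
      have : A * Y - Y ≤ A * Y := Nat.sub_le _ _
      exact_mod_cast this
    calc ((A * Y - Y : ℕ) : ℝ) * (1 / Y * A) ≤ (A * Y) * (1 / Y * A) :=
          mul_le_mul_of_nonneg_right q4 (by positivity)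
      _ = (A : ℝ) ^ 2 := by
          field_simp
  have p3 : S99 r A * H99 r Y = ∑ m ∈ Icc 1 Y, ind99 r m / m * (S99 r A - S99 r (A * Y / m)) +
      ∑ m ∈ Icc 1 Y, ind99 r m / m * S99 r (A * Y / m) := by
    rw [← Finset.sum_add_distrib]
    unfold H99
    rw [Finset.mul_sum]
    refine Finset.sum_congr rfl fun m _ => ?_
    ring
  have p4 : |S99 r A * H99 r Y| ≤ D * H99 r Y + (1 + (A : ℝ) ^ 2) := by
    rw [p3]
    refine (abs_add_le _ _).trans (add_le_add p1 ?_)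
    have e : ∑ m ∈ Icc 1 Y, ind99 r m / m * S99 r (A * Y / m) =
        1 - ∑ m ∈ Ioc Y (A * Y), ind99 r m / m * S99 r (A * Y / m) := by linarith
    rw [e]
    refine (abs_sub _ _).trans ?_
    rw [abs_one]
    linarith
  rw [abs_mul, abs_of_nonneg (H99_nonneg r Y)] at p4
  nlinarith

theorem mus (a : ℝ) (ha : 1 / 2 ≤ a) (ha1 : a ≤ 1) (hT : Tw a) (ε : ℝ) (hε : 0 < ε) : ∃ C : ℝ, 0 ≤ C ∧
    ∀ X r : ℕ, 1 ≤ X → 1 ≤ r →
      |∑ n ∈ (Icc 1 X).filter (fun n => n.Coprime r), (mu n : ℝ)| ≤ C * (r : ℝ) ^ ε * (X : ℝ) ^ (a + ε) ∧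
      |∑ n ∈ (Icc 1 X).filter (fun n => n.Coprime r), (mu n : ℝ) / n| ≤ C * (r : ℝ) ^ ε * (X : ℝ) ^ (a - 1 + ε) := by
  have eM : ∀ r X : ℕ, ∑ n ∈ (Icc 1 X).filter (fun n => n.Coprime r), (mu n : ℝ) = M99 r X := by
    intro r X
    rw [Finset.sum_filter]
    rfl
  have eS : ∀ r X : ℕ, ∑ n ∈ (Icc 1 X).filter (fun n => n.Coprime r), (mu n : ℝ) / n = S99 r X := by
    intro r X
    rw [Finset.sum_filter]
    unfold S99
    refine Finset.sum_congr rfl fun n _ => ?_
    unfold g99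
    split_ifs
    · rfl
    · simp
  simp only [eM, eS]
  -- the first part with any exponent
  have key : ∀ η : ℝ, 0 < η → ∃ C : ℝ, 0 ≤ C ∧ ∀ X r : ℕ, 1 ≤ X → 1 ≤ r →
      |M99 r X| ≤ C * (r : ℝ) ^ η * (X : ℝ) ^ (a + η) := by
    intro η hη
    obtain ⟨C, hC⟩ := hT η hη
    refine ⟨max C 0, le_max_right _ _, fun X r hX hr => ?_⟩
    have hX0 : (0 : ℝ) < X := by exact_mod_cast hX
    have hr0 : (0 : ℝ) < r := by exact_mod_cast hr
    have : NeZero r := ⟨by omega⟩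
    have h1 := hC r 1 0 X hr hX
    have h2 : tw mu (1 : DirichletCharacter ℂ r) 0 X = ((M99 r X : ℝ) : ℂ) := by
      unfold tw M99 npi
      push_cast
      refine Finset.sum_congr rfl fun n _ => ?_
      have h3 : (n : ℂ) ^ (((0 : ℝ) : ℂ) * Complex.I) = 1 := by
        rw [Complex.ofReal_zero, zero_mul, Complex.cpow_zero]
      have h3' : (n : ℂ) ^ ((0 : ℂ) * Complex.I) = 1 := by
        rw [zero_mul, Complex.cpow_zero]
      unfold g99
      by_cases hc : n.Coprime r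
      · have h4 : (1 : DirichletCharacter ℂ r) (n : ZMod r) = 1 :=
          MulChar.one_apply ((ZMod.isUnit_iff_coprime n r).mpr hc)
        rw [h4, if_pos hc]
        simp
      · have h4 : (1 : DirichletCharacter ℂ r) (n : ZMod r) = 0 :=
          MulChar.map_nonunit _ (fun h => hc ((ZMod.isUnit_iff_coprime n r).mp h))
        rw [h4, if_neg hc]
        simp
    rw [h2, Complex.norm_real, Real.norm_eq_abs, abs_zero, add_zero, mul_one,
      Real.mul_rpow hr0.le hX0.le] at h1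
    refine h1.trans ?_
    have h5 : (X : ℝ) ^ (a + η) = (X : ℝ) ^ η * (X : ℝ) ^ a := by
      rw [← Real.rpow_add hX0]
      congr 1
      ring
    rw [h5]
    have h6 : 0 ≤ (r : ℝ) ^ η * (X : ℝ) ^ η * (X : ℝ) ^ a := by positivity
    have h7 := mul_le_mul_of_nonneg_right (le_max_left C 0) h6
    calc C * ((r : ℝ) ^ η * (X : ℝ) ^ η) * (X : ℝ) ^ a = C * ((r : ℝ) ^ η * (X : ℝ) ^ η * (X : ℝ) ^ a) := by ring
      _ ≤ max C 0 * ((r : ℝ) ^ η * (X : ℝ) ^ η * (X : ℝ) ^ a) := h7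
      _ = _ := by ring
  obtain ⟨C1, hC1, h1⟩ := key ε hε
  rcases lt_or_eq_of_le ha1 with hlt | heq
  · obtain ⟨η, hη⟩ : ∃ η : ℝ, η = min ε ((1 - a) / 2) := ⟨_, rfl⟩
    have hη0 : 0 < η := by
      rw [hη]
      exact lt_min hε (by linarith)
    have hηε : η ≤ ε := by rw [hη]; exact min_le_left _ _
    have hη1 : a + η < 1 := by
      have : η ≤ (1 - a) / 2 := by rw [hη]; exact min_le_right _ _
      linarith
    obtain ⟨C2, hC2, h2⟩ := key η hη0
    obtain ⟨D, hD⟩ : ∃ D : ℝ, D = C2 / (1 - (a + η)) + 2 * C2 := ⟨_, rfl⟩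
    have hD0 : 0 ≤ D := by
      rw [hD]
      have : 0 < 1 - (a + η) := by linarith
      positivity
    refine ⟨max C1 D, hC1.trans (le_max_left _ _), fun X r hX hr => ?_⟩
    have hX0 : (0 : ℝ) < X := by exact_mod_cast hX
    have hX1 : (1 : ℝ) ≤ X := by exact_mod_cast hX
    have hr0 : (0 : ℝ) < r := by exact_mod_cast hr
    have hr1 : (1 : ℝ) ≤ r := by exact_mod_cast hr
    constructor
    · refine (h1 X r hX hr).trans ?_
      refine mul_le_mul_of_nonneg_right (mul_le_mul_of_nonneg_right (le_max_left _ _) ?_) ?_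
      · positivity
      · positivity
    · have h3 := small99 (σ := a + η) (K := C2 * (r : ℝ) ^ η) (by linarith) hη1 (by positivity) r hr
        (fun Z hZ => h2 Z r hZ hr) X hX
      refine h3.trans ?_
      have e1 : (C2 * (r : ℝ) ^ η / (1 - (a + η)) + 2 * (C2 * (r : ℝ) ^ η)) = D * (r : ℝ) ^ η := by
        rw [hD]
        ring
      rw [e1]
      have e2 : (r : ℝ) ^ η ≤ (r : ℝ) ^ ε := Real.rpow_le_rpow_of_exponent_le hr1 hηε
      have e3 : (X : ℝ) ^ (a + η - 1) ≤ (X : ℝ) ^ (a - 1 + ε) :=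
        Real.rpow_le_rpow_of_exponent_le hX1 (by linarith)
      refine mul_le_mul (mul_le_mul (le_max_right _ _) e2 (by positivity) ?_) e3 (by positivity) ?_
      · exact hC1.trans (le_max_left _ _)
      · have : 0 ≤ max C1 D := hC1.trans (le_max_left _ _)
        positivity
  · subst heq
    refine ⟨max C1 (1 + 1 / ε), hC1.trans (le_max_left _ _), fun X r hX hr => ?_⟩
    have hX0 : (0 : ℝ) < X := by exact_mod_cast hX
    have hX1 : (1 : ℝ) ≤ X := by exact_mod_cast hX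
    have hr0 : (0 : ℝ) < r := by exact_mod_cast hr
    have hr1 : (1 : ℝ) ≤ r := by exact_mod_cast hr
    have hCn : 0 ≤ max C1 (1 + 1 / ε) := hC1.trans (le_max_left _ _)
    constructor
    · refine (h1 X r hX hr).trans ?_
      refine mul_le_mul_of_nonneg_right (mul_le_mul_of_nonneg_right (le_max_left _ _) ?_) ?_
      · positivity
      · positivity
    · have h3 : |S99 r X| ≤ 1 + Real.log X := by
        have h4 : |S99 r X| ≤ ∑ n ∈ Icc 1 X, (1 : ℝ) / n := by
          unfold S99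
          refine (Finset.abs_sum_le_sum_abs _ _).trans (Finset.sum_le_sum fun n hn => ?_)
          rw [mem_Icc] at hn
          have hn0 : (0 : ℝ) < n := by exact_mod_cast hn.1
          rw [abs_div, abs_of_pos hn0]
          exact div_le_div_of_nonneg_right (g99_abs r n) hn0.le
        have h5 := harmonic_le_one_add_log X
        have h6 : ((harmonic X : ℚ) : ℝ) = ∑ n ∈ Icc 1 X, (1 : ℝ) / n := by
          rw [harmonic_eq_sum_Icc]
          push_cast
          refine Finset.sum_congr rfl fun n _ => ?_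
          rw [one_div]
        rw [h6] at h5
        exact h4.trans h5
      refine h3.trans ?_
      have h4 := Real.log_le_rpow_div hX0.le hε
      have h5 : (1 : ℝ) ≤ (X : ℝ) ^ ε := Real.one_le_rpow hX1 hε.le
      have h6 : (X : ℝ) ^ ε / ε = 1 / ε * (X : ℝ) ^ ε := by ring
      rw [h6] at h4
      have h7 : 1 + Real.log X ≤ (1 + 1 / ε) * (X : ℝ) ^ ε := by nlinarith
      refine h7.trans ?_
      have e0 : (1 : ℝ) - 1 + ε = ε := by ring
      rw [e0]
      have h8 : (1 : ℝ) ≤ (r : ℝ) ^ ε := Real.one_le_rpow hr1 hε.le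
      have h9 : (1 + 1 / ε) ≤ max C1 (1 + 1 / ε) * (r : ℝ) ^ ε := by
        have := le_max_right C1 (1 + 1 / ε)
        nlinarith
      exact mul_le_mul_of_nonneg_right h9 (by positivity)

end Pool.Agent.Helper55.CM
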